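import Pool.Agent.R332.FM.Prod

/-!
# Local logarithms and the unit-valued function `M` with `d_X M = -2 Ξ(X) M`
-/

set_option autoImplicit false
set_option linter.unusedVariables false
set_option linter.unusedSectionVars false

namespace Pool.Agent.R332.FM

open Finset TP Topology
open scoped ContDiff

section log

variable (𝕜 : Type) {R : Type} [RCLike 𝕜] [NormedCommRing R] [NormedAlgebra 𝕜 R] [CompleteSpace R]

/-- multiplication by a unit -/
noncomputable def mulEquiv (a : R) (h : IsUnit a) : R ≃L[𝕜] R :=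
  ContinuousLinearEquiv.equivOfInverse (ContinuousLinearMap.mul 𝕜 R a)
    (ContinuousLinearMap.mul 𝕜 R (Ring.inverse a))
    (fun x => by
      rw [ContinuousLinearMap.mul_apply', ContinuousLinearMap.mul_apply', ← mul_assoc,
        Ring.inverse_mul_cancel a h, one_mul])
    (fun x => by
      rw [ContinuousLinearMap.mul_apply', ContinuousLinearMap.mul_apply', ← mul_assoc,
        Ring.mul_inverse_cancel a h, one_mul])

theorem exists_log : ∃ (L : R → R) (V : Set R), IsOpen V ∧ (1 : R) ∈ V ∧ ∀ w ∈ V,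
    HasFDerivAt L (ContinuousLinearMap.mul 𝕜 R (Ring.inverse w)) w ∧ ContDiffAt 𝕜 ω L w := by
  have hcd : ∀ x : R, ContDiffAt 𝕜 ω (NormedSpace.exp : R → R) x := fun x =>
    (NormedSpace.exp_analytic (𝕂 := 𝕜) x).contDiffAt
  have hfd : HasFDerivAt (NormedSpace.exp : R → R)
      ((ContinuousLinearEquiv.refl 𝕜 R : R ≃L[𝕜] R) : R →L[𝕜] R) 0 := by
    have := hasFDerivAt_exp_zero (𝕂 := 𝕜) (𝔸 := R)
    exact this
  set e := (hcd 0).toOpenPartialHomeomorph _ hfd (by simp) with he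
  refine ⟨e.symm, e.target, e.open_target, ?_, fun w hw => ?_⟩
  · have := ContDiffAt.image_mem_toOpenPartialHomeomorph_target (hcd 0) hfd (by simp)
    rwa [NormedSpace.exp_zero] at this
  · have hexp : NormedSpace.exp (e.symm w) = w := e.right_inv hw
    have hun : IsUnit w := by
      rw [← hexp]
      exact NormedSpace.isUnit_exp_of_mem_ball (𝕂 := 𝕜)
        ((NormedSpace.expSeries_radius_eq_top 𝕜 R).symm ▸ edist_lt_top _ _)
    have hd : HasFDerivAt e ((mulEquiv 𝕜 w hun : R ≃L[𝕜] R) : R →L[𝕜] R) (e.symm w) := by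
      have h := hasFDerivAt_exp (𝕂 := 𝕜) (x := e.symm w)
      rw [hexp] at h
      have h2 : (w • (1 : R →L[𝕜] R)) = ((mulEquiv 𝕜 w hun : R ≃L[𝕜] R) : R →L[𝕜] R) := by
        ext x
        rfl
      rw [h2] at h
      exact h
    exact ⟨e.hasFDerivAt_symm hw hd, e.contDiffAt_symm hw hd (hcd _)⟩

/-- logarithmic derivative of an affine function with unit values -/
theorem log_comp {E : Type} [NormedAddCommGroup E] [NormedSpace 𝕜 E] {L : R → R} {V : Set R}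
    (hV : IsOpen V) (h1 : (1 : R) ∈ V) (hL : ∀ w ∈ V,
    HasFDerivAt L (ContinuousLinearMap.mul 𝕜 R (Ring.inverse w)) w ∧ ContDiffAt 𝕜 ω L w)
    (W : E →L[𝕜] R) (b : R) (p : E) (hp : IsUnit (W p + b)) :
    ∀ᶠ u in 𝓝 p, IsUnit (W u + b) ∧
      HasFDerivAt (fun u => L ((W u + b) * Ring.inverse (W p + b)))
        ((ContinuousLinearMap.mul 𝕜 R (Ring.inverse (W u + b))).comp W) u ∧
      ContDiffAt 𝕜 ω (fun u => L ((W u + b) * Ring.inverse (W p + b))) u := by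
  set q := Ring.inverse (W p + b) with hq
  have hqu : IsUnit q := by
    obtain ⟨a, ha⟩ := hp
    rw [hq, ← ha, Ring.inverse_unit]
    exact Units.isUnit _
  have hcont : Continuous (fun u => (W u + b) * q) := by fun_prop
  have hev : ∀ᶠ u in 𝓝 p, (W u + b) * q ∈ V := by
    apply hcont.continuousAt.eventually_mem
    rw [hq, Ring.mul_inverse_cancel _ hp]
    exact hV.mem_nhds h1
  have hev2 : ∀ᶠ u in 𝓝 p, IsUnit (W u + b) := by
    have hc : Continuous (fun u => W u + b) := by fun_prop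
    exact hc.continuousAt.eventually_mem (Units.isOpen.mem_nhds hp)
  filter_upwards [hev, hev2] with u hu hu2
  obtain ⟨hd, hcd⟩ := hL _ hu
  have haff : HasFDerivAt (fun u => (W u + b) * q)
      ((ContinuousLinearMap.mul 𝕜 R).flip q ∘L W) u := by
    have h := (((ContinuousLinearMap.mul 𝕜 R).flip q).hasFDerivAt (x := W u + b)).comp u
      ((W.hasFDerivAt (x := u)).add_const b)
    exact h
  refine ⟨hu2, ?_, ?_⟩
  · have h : HasFDerivAt (fun u => L ((W u + b) * q)) _ u := hd.comp u haff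
    have e : (ContinuousLinearMap.mul 𝕜 R (Ring.inverse ((W u + b) * q))) ∘L
        ((ContinuousLinearMap.mul 𝕜 R).flip q ∘L W) =
        (ContinuousLinearMap.mul 𝕜 R (Ring.inverse (W u + b))).comp W := by
      ext x
      show Ring.inverse ((W u + b) * q) * (W x * q) = Ring.inverse (W u + b) * W x
      obtain ⟨a, ha⟩ := hu2
      obtain ⟨b', hb'⟩ := hqu
      rw [← ha, ← hb', ← Units.val_mul, Ring.inverse_unit, Ring.inverse_unit, mul_inv,
        Units.val_mul]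
      have : (↑a⁻¹ * ↑b'⁻¹ : R) * (W x * ↑b') = ↑a⁻¹ * W x * (↑b'⁻¹ * ↑b') := by ring
      rw [this, Units.inv_mul, mul_one]
    rw [← e]
    exact h
  · have haff2 : ContDiffAt 𝕜 ω (fun u => (W u + b) * q) u := by
      have : ContDiff 𝕜 ω (fun u => (W u + b) * q) := by fun_prop
      exact this.contDiffAt
    exact ContDiffAt.comp u hcd haff2

end log

variable {𝕜 : Type} [RCLike 𝕜] {r : ℕ} {m : Fin r → ℕ} [∀ g, NeZero (m g)]
variable {E : Type} [NormedAddCommGroup E] [NormedSpace 𝕜 E]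

/-- the linear parts -/
noncomputable def W1 (φ : E →L[𝕜] Al 𝕜 m) (g : Fin r) : E →L[𝕜] TP 𝕜 (m g) :=
  (LinearMap.toContinuousLinearMap (SS : TP 𝕜 (m g) →ₗ[𝕜] TP 𝕜 (m g))) ∘L
    (ContinuousLinearMap.proj g) ∘L φ

noncomputable def W2 (φ : E →L[𝕜] Al 𝕜 m) (g : Fin r) : E →L[𝕜] TP 𝕜 (m g) :=
  (LinearMap.toContinuousLinearMap (DD : TP 𝕜 (m g) →ₗ[𝕜] TP 𝕜 (m g))) ∘L
    (ContinuousLinearMap.proj g) ∘L φ

noncomputable def W3 (φ : E →L[𝕜] Al 𝕜 m) (g a : Fin r) : E →L[𝕜] TP 𝕜 (m g) :=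
  (ContinuousLinearMap.proj g) ∘L φ -
    ((LinearMap.toContinuousLinearMap (c0 : TP 𝕜 (m a) →ₗ[𝕜] 𝕜)).smulRight
      (1 : TP 𝕜 (m g))) ∘L (ContinuousLinearMap.proj a) ∘L φ

theorem W1_apply (φ : E →L[𝕜] Al 𝕜 m) (g : Fin r) (X : E) : W1 φ g X = SS (φ X g) := rfl
theorem W2_apply (φ : E →L[𝕜] Al 𝕜 m) (g : Fin r) (X : E) : W2 φ g X = DD (φ X g) := rfl
theorem W3_apply (φ : E →L[𝕜] Al 𝕜 m) (g a : Fin r) (X : E) :
    W3 φ g a X = φ X g - c0 (φ X a) • (1 : TP 𝕜 (m g)) := rfl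

theorem exists_Lam (φ : E →L[𝕜] Al 𝕜 m) (c : Fin r → 𝕜) (p : E) (hp : Reg (φ p)) (g : Fin r) :
    ∃ Λ : E → TP 𝕜 (m g), ∀ᶠ u in 𝓝 p,
      (∃ D : E →L[𝕜] TP 𝕜 (m g), (∀ X, D X = Xi c (φ u) (φ X) g) ∧ HasFDerivAt Λ D u) ∧
      ContDiffAt 𝕜 ω Λ u := by
  obtain ⟨L, V, hV, h1, hL⟩ := exists_log 𝕜 (R := TP 𝕜 (m g))
  have k1 := log_comp 𝕜 hV h1 hL (W1 φ g) (dl 𝕜 (m g) • (1 : TP 𝕜 (m g))) p
    (isUnit_of_c0 (c0_w1 (φ p g) (hp.nz g)))
  have k2 := log_comp 𝕜 hV h1 hL (W2 φ g) (dl 𝕜 (m g) • (1 : TP 𝕜 (m g))) p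
    (isUnit_of_c0 (c0_w2 (φ p g) (hp.nz g)))
  have k3 : ∀ a ∈ univ.erase g, ∀ᶠ u in 𝓝 p, IsUnit (W3 φ g a u + 0) ∧
      HasFDerivAt (fun u => L ((W3 φ g a u + 0) * Ring.inverse (W3 φ g a p + 0)))
        ((ContinuousLinearMap.mul 𝕜 _ (Ring.inverse (W3 φ g a u + 0))).comp (W3 φ g a)) u ∧
      ContDiffAt 𝕜 ω (fun u => L ((W3 φ g a u + 0) * Ring.inverse (W3 φ g a p + 0))) u := by
    intro a ha
    apply log_comp 𝕜 hV h1 hL (W3 φ g a) 0 p
    rw [add_zero, W3_apply]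
    apply isUnit_of_c0
    rw [map_sub, map_smul, c0_one, smul_eq_mul, mul_one]
    exact sub_ne_zero.2 (hp.ne g a fun h => (Finset.mem_erase.1 ha).1 h.symm)
  have k3' := (Filter.eventually_all_finset (univ.erase g)).2 k3
  refine ⟨fun u => c g • (L ((W1 φ g u + dl 𝕜 (m g) • (1 : TP 𝕜 (m g))) *
      Ring.inverse (W1 φ g p + dl 𝕜 (m g) • (1 : TP 𝕜 (m g)))) -
      (1 / (m g : 𝕜)) • L ((W2 φ g u + dl 𝕜 (m g) • (1 : TP 𝕜 (m g))) *
      Ring.inverse (W2 φ g p + dl 𝕜 (m g) • (1 : TP 𝕜 (m g))))) +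
      ∑ a ∈ univ.erase g, c a • L ((W3 φ g a u + 0) * Ring.inverse (W3 φ g a p + 0)), ?_⟩
  filter_upwards [k1, k2, k3'] with u h1 h2 h3
  refine ⟨?_, ?_⟩
  · refine ⟨_, ?_, HasFDerivAt.add ((h1.2.1.sub (h2.2.1.const_smul (1 / (m g : 𝕜)))).const_smul
      (c g)) (HasFDerivAt.fun_sum fun a ha => (h3 a ha).2.1.const_smul (c a))⟩
    intro X
    rw [Xi_apply]
    simp only [_root_.add_apply, _root_.smul_apply,
      _root_.sub_apply, _root_.sum_apply, ContinuousLinearMap.comp_apply,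
      ContinuousLinearMap.mul_apply', add_zero]
    congr 1
    refine Finset.sum_congr rfl fun a ha => ?_
    congr 1
    rw [W3_apply, W3_apply, mul_comm]
  · have h2' := (h1.2.2.sub (h2.2.2.const_smul (1 / (m g : 𝕜)))).const_smul (c g)
    refine ContDiffAt.add h2' (ContDiffAt.sum fun a ha => (h3 a ha).2.2.const_smul (c a))

theorem exists_M (φ : E →L[𝕜] Al 𝕜 m) (c : Fin r → 𝕜) (p : E) (hp : Reg (φ p)) :
    ∃ M : E → Al 𝕜 m, ∀ᶠ u in 𝓝 p, Reg (φ u) ∧ (∀ g, IsUnit (M u g)) ∧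
      (∃ D : E →L[𝕜] Al 𝕜 m, (∀ X, D X = (-2 : 𝕜) • (Xi c (φ u) (φ X) * M u)) ∧
        HasFDerivAt M D u) ∧ ContDiffAt 𝕜 ω M u := by
  choose Λ hΛ using exists_Lam φ c p hp
  have hreg : ∀ᶠ u in 𝓝 p, Reg (φ u) := by
    have e1 : ∀ g a : Fin r, ∀ᶠ u in 𝓝 p, g ≠ a → c0 (φ u g) ≠ c0 (φ u a) := by
      intro g a
      by_cases h : g = a
      · exact Filter.Eventually.of_forall fun u hh => absurd h hh
      · have hc : Continuous fun u => c0 (φ u g) - c0 (φ u a) := by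
          have e2 : Continuous fun u => (LinearMap.toContinuousLinearMap
            (c0 : TP 𝕜 (m g) →ₗ[𝕜] 𝕜)) (φ u g) := by fun_prop
          have e3 : Continuous fun u => (LinearMap.toContinuousLinearMap
            (c0 : TP 𝕜 (m a) →ₗ[𝕜] 𝕜)) (φ u a) := by fun_prop
          exact e2.sub e3
        have := hc.continuousAt.eventually_ne (y := (0 : 𝕜)) (sub_ne_zero.2 (hp.ne g a h))
        filter_upwards [this] with u hu _
        exact sub_ne_zero.1 hu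
    have e2 : ∀ g : Fin r, ∀ᶠ u in 𝓝 p, ∀ h : 1 < m g, co (φ u g) ⟨1, h⟩ ≠ 0 := by
      intro g
      by_cases h : 1 < m g
      · let f : TP 𝕜 (m g) →ₗ[𝕜] 𝕜 :=
          { toFun := fun x => co x ⟨1, h⟩, map_add' := fun _ _ => rfl, map_smul' := fun _ _ => rfl }
        have hc : Continuous fun u => (LinearMap.toContinuousLinearMap f) (φ u g) := by fun_prop
        have := hc.continuousAt.eventually_ne (y := (0 : 𝕜)) (hp.nz g h)
        filter_upwards [this] with u hu _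
        exact hu
      · exact Filter.Eventually.of_forall fun u hh => absurd hh h
    have e3 := Filter.eventually_all.2 fun g => Filter.eventually_all.2 (e1 g)
    have e4 := Filter.eventually_all.2 e2
    filter_upwards [e3, e4] with u h3 h4
    exact ⟨h3, h4⟩
  have hall := Filter.eventually_all.2 hΛ
  refine ⟨fun u g => NormedSpace.exp ((-2 : 𝕜) • Λ g u), ?_⟩
  filter_upwards [hreg, hall] with u h1 h2
  refine ⟨h1, fun g => NormedSpace.isUnit_exp_of_mem_ball (𝕂 := 𝕜)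
        ((NormedSpace.expSeries_radius_eq_top 𝕜 (TP 𝕜 (m g))).symm ▸ edist_lt_top _ _), ?_, ?_⟩
  · choose D hD1 hD2 using fun g => (h2 g).1
    refine ⟨ContinuousLinearMap.pi fun g => (NormedSpace.exp ((-2 : 𝕜) • Λ g u) •
      (1 : TP 𝕜 (m g) →L[𝕜] TP 𝕜 (m g))) ∘L ((-2 : 𝕜) • D g), ?_, ?_⟩
    · intro X
      funext g
      show NormedSpace.exp ((-2 : 𝕜) • Λ g u) * ((-2 : 𝕜) • D g X) = _
      rw [hD1]
      show _ = (-2 : 𝕜) • (Xi c (φ u) (φ X) g * NormedSpace.exp ((-2 : 𝕜) • Λ g u))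
      rw [mul_smul_comm, mul_comm]
    · rw [hasFDerivAt_pi]
      intro g
      exact (hasFDerivAt_exp (𝕂 := 𝕜)).comp u ((hD2 g).const_smul (-2 : 𝕜))
  · rw [contDiffAt_pi]
    intro g
    exact ContDiffAt.comp u (NormedSpace.exp_analytic (𝕂 := 𝕜) _).contDiffAt
      ((h2 g).2.const_smul (-2 : 𝕜))

end Pool.Agent.R332.FM
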