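import Pool.Agent.R332.FM.TP

/-!
# One Jordan block: shift, derivative, nilpotent part
-/

set_option autoImplicit false
set_option linter.unusedVariables false
set_option linter.unusedSectionVars false

namespace Pool.Agent.R332.FM.TP

open Finset

variable {𝕜 : Type} [RCLike 𝕜] {n : ℕ}

/-- coefficient -/
def co (x : TP 𝕜 n) (k : Fin n) : 𝕜 := x k

theorem co_ext {x y : TP 𝕜 n} (h : ∀ k, co x k = co y k) : x = y := funext h
theorem co_add (x y : TP 𝕜 n) (k : Fin n) : co (x + y) k = co x k + co y k := rfl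
theorem co_sub (x y : TP 𝕜 n) (k : Fin n) : co (x - y) k = co x k - co y k := rfl
theorem co_neg (x : TP 𝕜 n) (k : Fin n) : co (-x) k = - co x k := rfl
theorem co_zero (k : Fin n) : co (0 : TP 𝕜 n) k = 0 := rfl
theorem co_smul (c : 𝕜) (x : TP 𝕜 n) (k : Fin n) : co (c • x) k = c * co x k := rfl
theorem co_one (k : Fin n) : co (1 : TP 𝕜 n) k = if (k : ℕ) = 0 then 1 else 0 := one_apply k
theorem co_mul (x y : TP 𝕜 n) (k : Fin n) :
    co (x * y) k = ∑ i : Fin n, ∑ j : Fin n, if (i : ℕ) + j = k then co x i * co y j else 0 :=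
  mul_apply x y k
theorem co_ofPS (f : PowerSeries 𝕜) (k : Fin n) :
    co (ofPS n f) k = PowerSeries.coeff (k : ℕ) f := rfl
theorem coeff_toPS' (x : TP 𝕜 n) (k : ℕ) (hk : k < n) :
    PowerSeries.coeff k (toPS x) = co x ⟨k, hk⟩ := coeff_toPS x ⟨k, hk⟩
theorem coeff_toPS_ge (x : TP 𝕜 n) (k : ℕ) (hk : n ≤ k) :
    PowerSeries.coeff k (toPS x) = 0 := by
  simp [toPS, hk]

variable (𝕜 n) in
/-- `ε` -/
noncomputable def ep : TP 𝕜 n := ofPS n PowerSeries.X

variable (𝕜 n) in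
/-- `ε^(n-1)` -/
noncomputable def tt : TP 𝕜 n := fun k => if (k : ℕ) + 1 = n then 1 else 0

theorem co_tt (k : Fin n) : co (tt 𝕜 n) k = if (k : ℕ) + 1 = n then 1 else 0 := rfl

theorem co_ep_mul (y : TP 𝕜 n) (k : ℕ) (hk : k < n) (hk0 : 0 < k) :
    co (ep 𝕜 n * y) ⟨k, hk⟩ = co y ⟨k - 1, by omega⟩ := by
  have h1 : ep 𝕜 n * y = ofPS n (PowerSeries.X * toPS y) := by
    rw [ofPS_mul, ofPS_toPS]; rfl
  obtain ⟨k, rfl⟩ : ∃ j, k = j + 1 := ⟨k - 1, by omega⟩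
  rw [h1, co_ofPS]
  show PowerSeries.coeff (k + 1) _ = _
  rw [PowerSeries.coeff_succ_X_mul, coeff_toPS' y k (by omega)]
  rfl

theorem co_ep_mul_zero (y : TP 𝕜 n) (k : ℕ) (hk : k < n) (hk0 : k = 0) :
    co (ep 𝕜 n * y) ⟨k, hk⟩ = 0 := by
  have h1 : ep 𝕜 n * y = ofPS n (PowerSeries.X * toPS y) := by
    rw [ofPS_mul, ofPS_toPS]; rfl
  subst hk0
  rw [h1, co_ofPS]
  show PowerSeries.coeff 0 _ = _
  simp

theorem co_ep_pow_mul (y : TP 𝕜 n) (j k : ℕ) (hk : k < n) (hjk : j ≤ k) :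
    co (ep 𝕜 n ^ j * y) ⟨k, hk⟩ = co y ⟨k - j, by omega⟩ := by
  have h1 : ep 𝕜 n ^ j * y = ofPS n (PowerSeries.X ^ j * toPS y) := by
    rw [ofPS_mul, ofPS_toPS, ofPS_pow]; rfl
  rw [h1, co_ofPS]
  show PowerSeries.coeff k _ = _
  rw [PowerSeries.coeff_X_pow_mul', if_pos hjk, coeff_toPS' y (k - j) (by omega)]

theorem co_ep_pow_mul_lt (y : TP 𝕜 n) (j k : ℕ) (hk : k < n) (hjk : k < j) :
    co (ep 𝕜 n ^ j * y) ⟨k, hk⟩ = 0 := by
  have h1 : ep 𝕜 n ^ j * y = ofPS n (PowerSeries.X ^ j * toPS y) := by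
    rw [ofPS_mul, ofPS_toPS, ofPS_pow]; rfl
  rw [h1, co_ofPS]
  show PowerSeries.coeff k _ = _
  rw [PowerSeries.coeff_X_pow_mul', if_neg (by omega)]

/-- shift -/
noncomputable def SS : TP 𝕜 n →ₗ[𝕜] TP 𝕜 n where
  toFun x := fun k => if h : (k : ℕ) + 1 < n then co x ⟨k + 1, h⟩ else 0
  map_add' x y := by
    refine co_ext fun k => ?_
    show (if h : (k : ℕ) + 1 < n then co (x + y) ⟨k + 1, h⟩ else 0) =
      (if h : (k : ℕ) + 1 < n then co x ⟨k + 1, h⟩ else 0) +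
      (if h : (k : ℕ) + 1 < n then co y ⟨k + 1, h⟩ else 0)
    split_ifs
    · rw [co_add]
    · rw [add_zero]
  map_smul' c x := by
    refine co_ext fun k => ?_
    show (if h : (k : ℕ) + 1 < n then co (c • x) ⟨k + 1, h⟩ else 0) =
      c * (if h : (k : ℕ) + 1 < n then co x ⟨k + 1, h⟩ else 0)
    split_ifs
    · rw [co_smul]
    · rw [mul_zero]

/-- derivative -/
noncomputable def DD : TP 𝕜 n →ₗ[𝕜] TP 𝕜 n where
  toFun x := fun k => if h : (k : ℕ) + 1 < n then ((k : ℕ) + 1 : 𝕜) * co x ⟨k + 1, h⟩ else 0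
  map_add' x y := by
    refine co_ext fun k => ?_
    show (if h : (k : ℕ) + 1 < n then ((k : ℕ) + 1 : 𝕜) * co (x + y) ⟨k + 1, h⟩ else 0) =
      (if h : (k : ℕ) + 1 < n then ((k : ℕ) + 1 : 𝕜) * co x ⟨k + 1, h⟩ else 0) +
      (if h : (k : ℕ) + 1 < n then ((k : ℕ) + 1 : 𝕜) * co y ⟨k + 1, h⟩ else 0)
    split_ifs
    · rw [co_add]; ring
    · rw [add_zero]
  map_smul' c x := by
    refine co_ext fun k => ?_
    show (if h : (k : ℕ) + 1 < n then ((k : ℕ) + 1 : 𝕜) * co (c • x) ⟨k + 1, h⟩ else 0) =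
      c * (if h : (k : ℕ) + 1 < n then ((k : ℕ) + 1 : 𝕜) * co x ⟨k + 1, h⟩ else 0)
    split_ifs
    · rw [co_smul]; ring
    · rw [mul_zero]

theorem co_SS (x : TP 𝕜 n) (k : ℕ) (hk : k < n) (h : k + 1 < n) :
    co (SS x) ⟨k, hk⟩ = co x ⟨k + 1, h⟩ := by
  show (if h : k + 1 < n then co x ⟨k + 1, h⟩ else 0) = _
  rw [dif_pos h]

theorem co_SS_top (x : TP 𝕜 n) (k : ℕ) (hk : k < n) (h : ¬ k + 1 < n) :
    co (SS x) ⟨k, hk⟩ = 0 := by
  show (if h : k + 1 < n then co x ⟨k + 1, h⟩ else 0) = _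
  rw [dif_neg h]

theorem co_DD (x : TP 𝕜 n) (k : ℕ) (hk : k < n) (h : k + 1 < n) :
    co (DD x) ⟨k, hk⟩ = ((k : ℕ) + 1 : 𝕜) * co x ⟨k + 1, h⟩ := by
  show (if h : k + 1 < n then ((k : ℕ) + 1 : 𝕜) * co x ⟨k + 1, h⟩ else 0) = _
  rw [dif_pos h]

theorem co_DD_top (x : TP 𝕜 n) (k : ℕ) (hk : k < n) (h : ¬ k + 1 < n) :
    co (DD x) ⟨k, hk⟩ = 0 := by
  show (if h : k + 1 < n then ((k : ℕ) + 1 : 𝕜) * co x ⟨k + 1, h⟩ else 0) = _
  rw [dif_neg h]

variable [NeZero n]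

/-- the top coefficient -/
noncomputable def top : TP 𝕜 n →ₗ[𝕜] 𝕜 where
  toFun x := co x ⟨n - 1, Nat.sub_lt (NeZero.pos n) one_pos⟩
  map_add' x y := rfl
  map_smul' c x := rfl

theorem top_apply (x : TP 𝕜 n) : top x = co x ⟨n - 1, Nat.sub_lt (NeZero.pos n) one_pos⟩ := rfl

/-- the constant coefficient -/
noncomputable def c0 : TP 𝕜 n →ₗ[𝕜] 𝕜 where
  toFun x := co x 0
  map_add' x y := rfl
  map_smul' c x := rfl

theorem c0_apply (x : TP 𝕜 n) : c0 x = co x 0 := rfl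

theorem c0_one : c0 (1 : TP 𝕜 n) = 1 := by
  rw [c0_apply, co_one]; simp

theorem c0_mul (x y : TP 𝕜 n) : c0 (x * y) = c0 x * c0 y := by
  rw [c0_apply, co_mul, Finset.sum_eq_single 0, Finset.sum_eq_single 0]
  · simp [c0_apply]
  · intro j _ hj
    rw [if_neg]
    intro h
    apply hj
    apply Fin.ext
    simp at h
    simpa using h
  · intro h; exact absurd (Finset.mem_univ _) h
  · intro i _ hi
    refine Finset.sum_eq_zero fun j _ => ?_
    rw [if_neg]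
    intro h
    apply hi
    apply Fin.ext
    simp at h
    simpa using h.1
  · intro h; exact absurd (Finset.mem_univ _) h

/-- (1) -/
theorem ep_SS (x : TP 𝕜 n) : ep 𝕜 n * SS x = x - c0 x • (1 : TP 𝕜 n) := by
  refine co_ext fun ⟨k, hk⟩ => ?_
  rw [co_sub, co_smul, co_one]
  by_cases hk0 : 0 < k
  · rw [co_ep_mul _ k hk hk0, co_SS _ (k - 1) (by omega) (by omega), if_neg hk0.ne', mul_zero,
      sub_zero]
    congr 1
    apply Fin.ext
    show k - 1 + 1 = k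
    omega
  · have h0 : k = 0 := by omega
    rw [co_ep_mul_zero _ k hk h0]
    subst h0
    rw [if_pos rfl, mul_one, c0_apply]
    exact (sub_self _).symm

/-- (2) -/
theorem SS_ep (y : TP 𝕜 n) : SS (ep 𝕜 n * y) = y - top y • tt 𝕜 n := by
  refine co_ext fun ⟨k, hk⟩ => ?_
  rw [co_sub, co_smul, co_tt]
  by_cases h : k + 1 < n
  · rw [co_SS _ k hk h, co_ep_mul _ (k + 1) h (by omega), if_neg (by show ¬ k + 1 = n; omega),
      mul_zero, sub_zero]
    rfl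
  · rw [co_SS_top _ k hk h, if_pos (by show k + 1 = n; omega), mul_one, top_apply]
    have h2 : (⟨n - 1, Nat.sub_lt (NeZero.pos n) one_pos⟩ : Fin n) = ⟨k, hk⟩ := by
      apply Fin.ext
      show n - 1 = k
      omega
    rw [h2, sub_self]

/-- (3) -/
theorem DD_ep (y : TP 𝕜 n) :
    DD (ep 𝕜 n * y) = y + ep 𝕜 n * DD y - ((n : 𝕜) * top y) • tt 𝕜 n := by
  refine co_ext fun ⟨k, hk⟩ => ?_
  rw [co_sub, co_add, co_smul, co_tt]
  have h3 : co y ⟨k, hk⟩ + co (ep 𝕜 n * DD y) ⟨k, hk⟩ = ((k : ℕ) + 1 : 𝕜) * co y ⟨k, hk⟩ := by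
    by_cases h0 : 0 < k
    · rw [co_ep_mul _ k hk h0, co_DD _ (k - 1) (by omega) (by omega)]
      have h2 : (⟨k - 1 + 1, by omega⟩ : Fin n) = ⟨k, hk⟩ := by
        apply Fin.ext
        show k - 1 + 1 = k
        omega
      have h4 : (((k - 1 : ℕ) : 𝕜) + 1) = (k : 𝕜) := by
        have : (k - 1 : ℕ) + 1 = k := by omega
        exact_mod_cast congrArg (fun t : ℕ => (t : 𝕜)) this
      rw [h2, h4]
      ring
    · have h0' : k = 0 := by omega
      rw [co_ep_mul_zero _ k hk h0']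
      subst h0'
      simp
  rw [h3]
  by_cases h : k + 1 < n
  · rw [co_DD _ k hk h, co_ep_mul _ (k + 1) h (by omega), if_neg (by show ¬ k + 1 = n; omega),
      mul_zero, sub_zero]
    rfl
  · rw [co_DD_top _ k hk h, if_pos (by show k + 1 = n; omega), mul_one, top_apply]
    have h2 : (⟨n - 1, Nat.sub_lt (NeZero.pos n) one_pos⟩ : Fin n) = ⟨k, hk⟩ := by
      apply Fin.ext
      show n - 1 = k
      omega
    have h4 : ((k : ℕ) + 1 : 𝕜) = (n : 𝕜) := by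
      have : k + 1 = n := by omega
      exact_mod_cast congrArg (fun t : ℕ => (t : 𝕜)) this
    rw [h2, h4, sub_self]

/-- (4) -/
theorem mul_tt (w : TP 𝕜 n) : w * tt 𝕜 n = c0 w • tt 𝕜 n := by
  refine co_ext fun k => ?_
  rw [co_mul, co_smul, Finset.sum_eq_single 0]
  · have h : ∀ j : Fin n, (if ((0 : Fin n) : ℕ) + j = k then co w 0 * co (tt 𝕜 n) j else 0) =
        if j = k then co w 0 * co (tt 𝕜 n) j else 0 := by
      intro j
      congr 1
      simp [Fin.ext_iff]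
    rw [Finset.sum_congr rfl fun j _ => h j, Finset.sum_ite_eq' Finset.univ k]
    simp [c0_apply]
  · intro i _ hi
    refine Finset.sum_eq_zero fun j _ => ?_
    split_ifs with h
    · have hi' : 0 < (i : ℕ) := by
        rcases Nat.eq_zero_or_pos (i : ℕ) with h' | h'
        · exact absurd (Fin.ext (by simpa using h')) hi
        · exact h'
      have hkk := k.2
      rw [co_tt, if_neg (by omega), mul_zero]
    · rfl
  · intro h; exact absurd (Finset.mem_univ _) h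

/-- (5) -/
theorem ep_DD_ofPS (f : PowerSeries 𝕜) :
    ep 𝕜 n * DD (ofPS n f) = ofPS n (PowerSeries.X * PowerSeries.derivative 𝕜 f) := by
  refine co_ext fun ⟨k, hk⟩ => ?_
  rw [co_ofPS]
  rcases k with _ | k
  · rw [co_ep_mul_zero _ 0 hk rfl]
    simp
  · rw [co_ep_mul _ (k + 1) hk (by omega), co_DD _ (k + 1 - 1) (by omega) (by omega), co_ofPS]
    show _ = PowerSeries.coeff (k + 1) _
    rw [PowerSeries.coeff_succ_X_mul, PowerSeries.coeff_derivative]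
    show ((k : 𝕜) + 1) * PowerSeries.coeff (k + 1) f = _
    ring

theorem ep_DD_mul (x y : TP 𝕜 n) :
    ep 𝕜 n * DD (x * y) = ep 𝕜 n * (DD x * y + x * DD y) := by
  have h1 : x * y = ofPS n (toPS x * toPS y) := by rw [ofPS_mul, ofPS_toPS, ofPS_toPS]
  have hx : ep 𝕜 n * DD x = ofPS n (PowerSeries.X * PowerSeries.derivative 𝕜 (toPS x)) := by
    conv_lhs => rw [← ofPS_toPS x]
    exact ep_DD_ofPS _
  have hy : ep 𝕜 n * DD y = ofPS n (PowerSeries.X * PowerSeries.derivative 𝕜 (toPS y)) := by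
    conv_lhs => rw [← ofPS_toPS y]
    exact ep_DD_ofPS _
  have hadd : ∀ f g : PowerSeries 𝕜, ofPS n (f + g) = ofPS n f + ofPS n g := by
    intro f g
    refine co_ext fun k => ?_
    rw [co_ofPS, co_add, co_ofPS, co_ofPS, map_add]
  have h2 : ep 𝕜 n * (DD x * y + x * DD y) = (ep 𝕜 n * DD x) * y + x * (ep 𝕜 n * DD y) := by
    ring
  rw [h1, ep_DD_ofPS, h2, hx, hy, Derivation.leibniz]
  have h3 : PowerSeries.X * (toPS x • PowerSeries.derivative 𝕜 (toPS y) +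
      toPS y • PowerSeries.derivative 𝕜 (toPS x)) =
      (PowerSeries.X * PowerSeries.derivative 𝕜 (toPS x)) * toPS y +
      toPS x * (PowerSeries.X * PowerSeries.derivative 𝕜 (toPS y)) := by
    simp only [smul_eq_mul]
    ring
  rw [h3, hadd, ofPS_mul _ (toPS y), ofPS_mul (toPS x) _, ofPS_toPS, ofPS_toPS]

end Pool.Agent.R332.FM.TP
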