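import Pool.Agent.R332.FM.Blk

/-!
# One Jordan block: the operator `Δ`
-/

set_option autoImplicit false
set_option linter.unusedVariables false
set_option linter.unusedSectionVars false

namespace Pool.Agent.R332.FM.TP

open Finset

variable {𝕜 : Type} [RCLike 𝕜] {n : ℕ} [NeZero n]

theorem c0_pow (x : TP 𝕜 n) (j : ℕ) : c0 (x ^ j) = c0 x ^ j := by
  induction j with
  | zero => rw [pow_zero, pow_zero, c0_one]
  | succ j ih => rw [pow_succ, pow_succ, c0_mul, ih]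

/-- nilpotent part -/
noncomputable def nu (x : TP 𝕜 n) : TP 𝕜 n := x - c0 x • (1 : TP 𝕜 n)

theorem nu_eq (x : TP 𝕜 n) : nu x = ep 𝕜 n * SS x := (ep_SS x).symm

theorem nu_pow_eq_zero (x : TP 𝕜 n) (j : ℕ) (h : n ≤ j) : nu x ^ j = 0 := by
  rw [nu_eq, mul_pow]
  refine co_ext fun ⟨k, hk⟩ => ?_
  rw [co_ep_pow_mul_lt _ j k hk (by omega), co_zero]

theorem co_nu_pow_lt (x : TP 𝕜 n) (j k : ℕ) (hk : k < n) (h : k < j) :
    co (nu x ^ j) ⟨k, hk⟩ = 0 := by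
  rw [nu_eq, mul_pow, co_ep_pow_mul_lt _ j k hk h]

theorem co_nu_pow (x : TP 𝕜 n) (k : ℕ) (hk : k < n) :
    co (nu x ^ k) ⟨k, hk⟩ = c0 (SS x) ^ k := by
  rw [nu_eq, mul_pow, co_ep_pow_mul _ k k hk le_rfl, ← c0_pow, c0_apply]
  congr 1
  apply Fin.ext
  simp

theorem c0_SS (x : TP 𝕜 n) (h : 1 < n) : c0 (SS x) = co x ⟨1, h⟩ := by
  rw [c0_apply]
  exact co_SS x 0 (NeZero.pos n) h

theorem c0_DD (x : TP 𝕜 n) (h : 1 < n) : c0 (DD x) = co x ⟨1, h⟩ := by
  rw [c0_apply]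
  have := co_DD x 0 (NeZero.pos n) h
  simp only [Nat.cast_zero, zero_add, one_mul] at this
  exact this

theorem isUnit_of_c0 {x : TP 𝕜 n} (h : c0 x ≠ 0) : IsUnit x := by
  have h1 : x = c0 x • (1 + (c0 x)⁻¹ • nu x) := by
    rw [smul_add, smul_smul, mul_inv_cancel₀ h, one_smul, nu]
    abel
  have h2 : IsNilpotent ((c0 x)⁻¹ • nu x) :=
    ⟨n, by rw [smul_pow, nu_pow_eq_zero x n le_rfl, smul_zero]⟩
  have h3 : IsUnit (1 + (c0 x)⁻¹ • nu x) := h2.isUnit_one_add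
  rw [h1]
  have h4 : c0 x • (1 + (c0 x)⁻¹ • nu x) =
      algebraMap 𝕜 (TP 𝕜 n) (c0 x) * (1 + (c0 x)⁻¹ • nu x) := by
    rw [Algebra.smul_def]
  rw [h4]
  exact IsUnit.mul ((IsUnit.mk0 _ h).map (algebraMap 𝕜 (TP 𝕜 n))) h3

theorem powers {W : Type} [AddCommGroup W] [Module 𝕜 W] (f : TP 𝕜 n →ₗ[𝕜] W) (u : TP 𝕜 n)
    (hu : ∀ h : 1 < n, co u ⟨1, h⟩ ≠ 0) (k0 : ℕ) (hf : ∀ k, k0 ≤ k → f (nu u ^ k) = 0) :
    ∀ x : TP 𝕜 n, (∀ i : ℕ, ∀ hi : i < n, i < k0 → co x ⟨i, hi⟩ = 0) → f x = 0 := by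
  have key : ∀ j k : ℕ, k + j = n → k0 ≤ k → ∀ x : TP 𝕜 n,
      (∀ i : ℕ, ∀ hi : i < n, i < k → co x ⟨i, hi⟩ = 0) → f x = 0 := by
    intro j
    induction j with
    | zero =>
      intro k hk _ x hx
      have : x = 0 := co_ext fun ⟨i, hi⟩ => by rw [hx i hi (by omega), co_zero]
      rw [this, map_zero]
    | succ j ih =>
      intro k hk hk0 x hx
      have hkn : k < n := by omega
      have hne : c0 (SS u) ^ k ≠ 0 := by
        rcases Nat.eq_zero_or_pos k with h | h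
        · subst h; rw [pow_zero]; exact one_ne_zero
        · have h1 : 1 < n := by omega
          rw [c0_SS u h1]
          exact pow_ne_zero _ (hu h1)
      have h := ih (k + 1) (by omega) (by omega)
        (x - (co x ⟨k, hkn⟩ / c0 (SS u) ^ k) • nu u ^ k) ?_
      · rw [map_sub, map_smul, hf k hk0, smul_zero, sub_zero] at h
        exact h
      · intro i hi hik
        rw [co_sub, co_smul]
        rcases Nat.lt_succ_iff_lt_or_eq.1 hik with h' | h'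
        · rw [hx i hi h', co_nu_pow_lt u k i hi h', mul_zero, sub_zero]
        · subst h'
          rw [co_nu_pow u i hi, div_mul_cancel₀ _ hne, sub_self]
  intro x hx
  rcases Nat.lt_or_ge n k0 with h | h
  · have : x = 0 := co_ext fun ⟨i, hi⟩ => by rw [hx i hi (by omega), co_zero]
    rw [this, map_zero]
  · exact key (n - k0) k0 (by omega) le_rfl x hx

variable (𝕜 n) in
noncomputable def dl : 𝕜 := if n = 1 then 1 else 0

noncomputable def w1 (u : TP 𝕜 n) : TP 𝕜 n := SS u + dl 𝕜 n • (1 : TP 𝕜 n)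
noncomputable def w2 (u : TP 𝕜 n) : TP 𝕜 n := DD u + dl 𝕜 n • (1 : TP 𝕜 n)

theorem SS_one_case (h : n = 1) (x : TP 𝕜 n) : SS x = 0 := by
  refine co_ext fun ⟨k, hk⟩ => ?_
  rw [co_SS_top _ k hk (by omega), co_zero]

theorem DD_one_case (h : n = 1) (x : TP 𝕜 n) : DD x = 0 := by
  refine co_ext fun ⟨k, hk⟩ => ?_
  rw [co_DD_top _ k hk (by omega), co_zero]

theorem c0_w1 (u : TP 𝕜 n) (hu : ∀ h : 1 < n, co u ⟨1, h⟩ ≠ 0) : c0 (w1 u) ≠ 0 := by
  rw [w1, map_add, map_smul, c0_one, smul_eq_mul, mul_one]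
  by_cases h : n = 1
  · rw [SS_one_case h, map_zero, zero_add, dl, if_pos h]
    exact one_ne_zero
  · have h1 : 1 < n := by have := NeZero.pos n; omega
    rw [dl, if_neg h, add_zero, c0_SS u h1]
    exact hu h1

theorem c0_w2 (u : TP 𝕜 n) (hu : ∀ h : 1 < n, co u ⟨1, h⟩ ≠ 0) : c0 (w2 u) ≠ 0 := by
  rw [w2, map_add, map_smul, c0_one, smul_eq_mul, mul_one]
  by_cases h : n = 1
  · rw [DD_one_case h, map_zero, zero_add, dl, if_pos h]
    exact one_ne_zero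
  · have h1 : 1 < n := by have := NeZero.pos n; omega
    rw [dl, if_neg h, add_zero, c0_DD u h1]
    exact hu h1

/-- the operator `Δ` -/
noncomputable def Dl (u : TP 𝕜 n) : TP 𝕜 n →ₗ[𝕜] TP 𝕜 n :=
  (LinearMap.mulLeft 𝕜 (Ring.inverse (w1 u))) ∘ₗ SS -
    (1 / (n : 𝕜)) • ((LinearMap.mulLeft 𝕜 (Ring.inverse (w2 u))) ∘ₗ DD)

theorem Dl_apply (u X : TP 𝕜 n) : Dl u X = Ring.inverse (w1 u) * SS X -
    (1 / (n : 𝕜)) • (Ring.inverse (w2 u) * DD X) := rfl

theorem SS_one : SS (1 : TP 𝕜 n) = 0 := by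
  refine co_ext fun ⟨k, hk⟩ => ?_
  by_cases h : k + 1 < n
  · rw [co_SS _ k hk h, co_one, co_zero, if_neg (by show ¬ k + 1 = 0; omega)]
  · rw [co_SS_top _ k hk h, co_zero]

theorem DD_one : DD (1 : TP 𝕜 n) = 0 := by
  refine co_ext fun ⟨k, hk⟩ => ?_
  by_cases h : k + 1 < n
  · rw [co_DD _ k hk h, co_one, co_zero, if_neg (by show ¬ k + 1 = 0; omega), mul_zero]
  · rw [co_DD_top _ k hk h, co_zero]

theorem Dl_one (u : TP 𝕜 n) : Dl u 1 = 0 := by
  rw [Dl_apply, SS_one, DD_one]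
  simp

theorem inv_tt (w : TP 𝕜 n) (h : c0 w ≠ 0) : Ring.inverse w * tt 𝕜 n = (c0 w)⁻¹ • tt 𝕜 n := by
  have h1 := isUnit_of_c0 h
  have h2 : Ring.inverse w * (w * tt 𝕜 n) = tt 𝕜 n := by
    rw [← mul_assoc, Ring.inverse_mul_cancel w h1, one_mul]
  rw [mul_tt w, mul_smul_comm] at h2
  conv_rhs => rw [← h2]
  rw [smul_smul, inv_mul_cancel₀ h, one_smul]

theorem top_SS (x : TP 𝕜 n) : top (SS x) = 0 := by
  rw [top_apply]
  exact co_SS_top x _ _ (by omega)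

theorem ep_tt : ep 𝕜 n * tt 𝕜 n = (if n = 1 then 0 else 0 : 𝕜) • tt 𝕜 n := by
  rw [mul_tt]
  have : c0 (ep 𝕜 n) = 0 := by
    have := co_ep_mul_zero (1 : TP 𝕜 n) 0 (NeZero.pos n) rfl
    rw [mul_one] at this
    exact this
  rw [this]
  simp

theorem main_block (u X : TP 𝕜 n) (hu : ∀ h : 1 < n, co u ⟨1, h⟩ ≠ 0) :
    Dl u (u * X) - u * Dl u X = c0 X • (1 : TP 𝕜 n) - (1 / (n : 𝕜)) • X := by
  have hn0 : (n : 𝕜) ≠ 0 := by exact_mod_cast NeZero.ne n
  by_cases h : n = 1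
  · have hX : X = c0 X • (1 : TP 𝕜 n) := by
      have := ep_SS X
      rw [SS_one_case h, mul_zero] at this
      exact (sub_eq_zero.1 this.symm)
    have hc : (n : 𝕜) = 1 := by rw [h]; simp
    rw [Dl_apply, Dl_apply, SS_one_case h, SS_one_case h, DD_one_case h, DD_one_case h, hc]
    simp only [mul_zero, smul_zero, sub_zero, div_one, one_smul]
    rw [← hX, sub_self]
  have h1 : 1 < n := by have := NeZero.pos n; omega
  have hd : dl 𝕜 n = 0 := by rw [dl, if_neg h]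
  have hw1 : w1 u = SS u := by rw [w1, hd, zero_smul, add_zero]
  have hw2 : w2 u = DD u := by rw [w2, hd, zero_smul, add_zero]
  have hc1 : c0 (SS u) ≠ 0 := by rw [c0_SS u h1]; exact hu h1
  have hc2 : c0 (DD u) = c0 (SS u) := by rw [c0_SS u h1, c0_DD u h1]
  have hc2' : c0 (DD u) ≠ 0 := by rw [hc2]; exact hc1
  have hU : u = c0 u • (1 : TP 𝕜 n) + ep 𝕜 n * SS u := by rw [ep_SS]; abel
  have hUX : u * X = c0 u • X + ep 𝕜 n * (SS u * X) := by
    conv_lhs => rw [hU]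
    rw [add_mul, smul_mul_assoc, one_mul, mul_assoc]
  have e1 : SS (u * X) - u * SS X = c0 X • SS u - top (SS u * X) • tt 𝕜 n := by
    rw [hUX, map_add, map_smul, SS_ep]
    have : u * SS X = c0 u • SS X + SS u * (X - c0 X • (1 : TP 𝕜 n)) := by
      rw [← ep_SS X]
      conv_lhs => rw [hU]
      rw [add_mul, smul_mul_assoc, one_mul]
      ring
    rw [this, mul_sub, mul_smul_comm, mul_one]
    abel
  have e2 : DD (u * X) - u * DD X = DD u * X - ((n : 𝕜) * top (SS u * X)) • tt 𝕜 n := by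
    have hDu : DD u = SS u + ep 𝕜 n * DD (SS u) := by
      conv_lhs => rw [hU]
      rw [map_add, map_smul, DD_one, smul_zero, zero_add, DD_ep, top_SS, mul_zero, zero_smul,
        sub_zero]
    rw [hUX, map_add, map_smul, DD_ep, ep_DD_mul]
    have : u * DD X = c0 u • DD X + ep 𝕜 n * SS u * DD X := by
      conv_lhs => rw [hU]
      rw [add_mul, smul_mul_assoc, one_mul]
    rw [this, hDu]
    ring
  have f1 : Ring.inverse (SS u) * (SS (u * X) - u * SS X) =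
      c0 X • (1 : TP 𝕜 n) - (top (SS u * X) * (c0 (SS u))⁻¹) • tt 𝕜 n := by
    rw [e1, mul_sub, mul_smul_comm, mul_smul_comm, Ring.inverse_mul_cancel _ (isUnit_of_c0 hc1),
      inv_tt _ hc1, smul_smul]
  have f2 : Ring.inverse (DD u) * (DD (u * X) - u * DD X) =
      X - ((n : 𝕜) * top (SS u * X) * (c0 (SS u))⁻¹) • tt 𝕜 n := by
    rw [e2, mul_sub, mul_smul_comm, ← mul_assoc, Ring.inverse_mul_cancel _ (isUnit_of_c0 hc2'),
      inv_tt _ hc2', smul_smul, one_mul, hc2]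
  have f3 : Dl u (u * X) - u * Dl u X = Ring.inverse (SS u) * (SS (u * X) - u * SS X) -
      (1 / (n : 𝕜)) • (Ring.inverse (DD u) * (DD (u * X) - u * DD X)) := by
    rw [Dl_apply, Dl_apply, hw1, hw2]
    rw [mul_sub (Ring.inverse (DD u)), smul_sub, mul_sub u, mul_smul_comm]
    have : Ring.inverse (DD u) * (u * DD X) = u * (Ring.inverse (DD u) * DD X) := by ring
    rw [this]
    ring
  rw [f3, f1, f2, smul_sub, smul_smul]
  have : (1 / (n : 𝕜)) * ((n : 𝕜) * top (SS u * X) * (c0 (SS u))⁻¹) =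
      top (SS u * X) * (c0 (SS u))⁻¹ := by
    field_simp
  rw [this]
  abel

end Pool.Agent.R332.FM.TP
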