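import Pool.Agent.R332.FM.Only
import Pool.Agent.R332.FM.Ana

/-!
# Metrics on flat F-manifolds from linear `a₀`: version with continuous bilinear maps

Let `u^{i(α)}` be David-Hertling coordinates of a regular F-manifold with Euler vector field, with
Jordan blocks of sizes `m α`, let `a₀ = Σ c_k u^k` be linear, and let `∇` be a torsion-free
connection near `p` with `∇ e = 0` and `d_∇ [(E - a₀ e) ∘] = 0`.  Then the equation `(⋆)` has a
non-degenerate invariant solution near `p` if and only if `a₀` involves only the main variables.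
The theorem covers real (smooth) and complex (holomorphic) data, all dimensions and all Jordan
block structures.
-/

set_option autoImplicit false
set_option linter.unusedSectionVars false

namespace Pool.Agent.R332.FM.CLM

open Finset Topology
open scoped ContDiff

variable {𝕜 : Type} [RCLike 𝕜] {r : ℕ} {m : Fin r → ℕ}

/-- Coordinates (and tangent vectors, in the coordinate frame): `u g i` is `u^{(i+1)(g)}`, the
`(i+1)`-st coordinate of the `g`-th block, `0 ≤ i < m g`. -/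
abbrev Vec (𝕜 : Type) {r : ℕ} (m : Fin r → ℕ) : Type := (g : Fin r) → Fin (m g) → 𝕜

/-- The product `X ∘ Y` of tangent vectors: `∂_{j(g)} ∘ ∂_{k(g)} = ∂_{(j+k)(g)}` (indices from `0`,
zero if `j + k ≥ m g`), and products of vectors of different blocks vanish. -/
def prod (X Y : Vec 𝕜 m) : Vec 𝕜 m := fun g k =>
  ∑ i : Fin (m g), ∑ j : Fin (m g), if (i : ℕ) + j = k then X g i * Y g j else 0

/-- The unit vector field `e`. -/
def unit : Vec 𝕜 m := fun _ k => if (k : ℕ) = 0 then 1 else 0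

/-- `p` is a regular point: the operator of multiplication by the Euler vector field `E = u` has one
Jordan block for each of its distinct eigenvalues `p g 0`. -/
def Regular (p : Vec 𝕜 m) : Prop :=
  (∀ g a, ∀ (hg : 0 < m g) (ha : 0 < m a), g ≠ a → p g ⟨0, hg⟩ ≠ p a ⟨0, ha⟩) ∧
  ∀ g, ∀ h : 1 < m g, p g ⟨1, h⟩ ≠ 0

/-- The linear function `a₀ = Σ c_k u^k`. -/
def a0 (c u : Vec 𝕜 m) : 𝕜 := ∑ g, ∑ i, c g i * u g i

/-- The endomorphism field `A = (E - a₀ e) ∘`, where `E = u` is the Euler vector field. -/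
def endo (c u Y : Vec 𝕜 m) : Vec 𝕜 m := prod (u - a0 c u • unit) Y

/-- `(∇_X A) Y = ∇_X (A Y) - A (∇_X Y)` for coordinate vector fields `X`, `Y`, where
`∇_X Y = D_X Y + Γ(X, Y)`. -/
noncomputable def nablaA (c : Vec 𝕜 m) (Γ : Vec 𝕜 m → Vec 𝕜 m →L[𝕜] Vec 𝕜 m →L[𝕜] Vec 𝕜 m)
    (u X Y : Vec 𝕜 m) : Vec 𝕜 m :=
  fderiv 𝕜 (fun v => endo c v Y) u X + Γ u X (endo c u Y) - endo c u (Γ u X Y)

/-- At the point `u`, the connection `∇ = D + Γ` is torsion free, `∇ e = 0`, and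
`d_∇ [(E - a₀ e) ∘] = 0`. -/
structure IsConn (c : Vec 𝕜 m) (Γ : Vec 𝕜 m → Vec 𝕜 m →L[𝕜] Vec 𝕜 m →L[𝕜] Vec 𝕜 m)
    (u : Vec 𝕜 m) : Prop where
  torsion_free : ∀ X Y, Γ u X Y = Γ u Y X
  unit_parallel : ∀ X, Γ u X unit = 0
  d_nabla : ∀ X Y, nablaA c Γ u X Y - nablaA c Γ u Y X = 0

/-- `dθ(X, Y)` for the counit `θ = g(e, ·)` and coordinate vector fields `X`, `Y`. -/
noncomputable def dTheta (g : Vec 𝕜 m → Vec 𝕜 m →L[𝕜] Vec 𝕜 m →L[𝕜] 𝕜) (u X Y : Vec 𝕜 m) : 𝕜 :=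
  fderiv 𝕜 (fun v => g v unit Y) u X - fderiv 𝕜 (fun v => g v unit X) u Y

/-- `(∇_X g)(Y, Z)` for coordinate vector fields. -/
noncomputable def nablaG (Γ : Vec 𝕜 m → Vec 𝕜 m →L[𝕜] Vec 𝕜 m →L[𝕜] Vec 𝕜 m)
    (g : Vec 𝕜 m → Vec 𝕜 m →L[𝕜] Vec 𝕜 m →L[𝕜] 𝕜) (u X Y Z : Vec 𝕜 m) : 𝕜 :=
  fderiv 𝕜 (fun v => g v Y Z) u X - g u (Γ u X Y) Z - g u Y (Γ u X Z)

/-- At the point `u`, `g` is a non-degenerate symmetric invariant form which satisfies `(⋆)`. -/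
structure IsSol (Γ : Vec 𝕜 m → Vec 𝕜 m →L[𝕜] Vec 𝕜 m →L[𝕜] Vec 𝕜 m)
    (g : Vec 𝕜 m → Vec 𝕜 m →L[𝕜] Vec 𝕜 m →L[𝕜] 𝕜) (u : Vec 𝕜 m) : Prop where
  symm : ∀ X Y, g u X Y = g u Y X
  nondeg : ∀ X, (∀ Y, g u X Y = 0) → X = 0
  invariant : ∀ X Y Z, g u (prod X Y) Z = g u (prod X Z) Y
  star : ∀ X Y Z, nablaG Γ g u X Y Z =
    1 / 2 * dTheta g u (prod X Y) Z + 1 / 2 * dTheta g u (prod X Z) Y

/-- `(⋆)` has a non-degenerate invariant solution (a smooth, resp. holomorphic, metric) near `p`. -/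
def HasSolution (Γ : Vec 𝕜 m → Vec 𝕜 m →L[𝕜] Vec 𝕜 m →L[𝕜] Vec 𝕜 m) (p : Vec 𝕜 m) : Prop :=
  ∃ U : Set (Vec 𝕜 m), IsOpen U ∧ p ∈ U ∧ ∃ g : Vec 𝕜 m → Vec 𝕜 m →L[𝕜] Vec 𝕜 m →L[𝕜] 𝕜,
    ContDiffOn 𝕜 ∞ g U ∧ ∀ u ∈ U, IsSol Γ g u


section proof

open Pool.Agent.R332.FM Pool.Agent.R332.FM.TP

variable [∀ g, NeZero (m g)]

/-- the identity, as a linear equivalence onto the algebra -/
noncomputable def phiL : Vec 𝕜 m ≃ₗ[𝕜] Al 𝕜 m where
  toFun X := fun g => X g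
  invFun X := fun g => X g
  map_add' _ _ := rfl
  map_smul' _ _ := rfl
  left_inv _ := rfl
  right_inv _ := rfl

noncomputable def phi : Vec 𝕜 m ≃L[𝕜] Al 𝕜 m := (phiL (𝕜 := 𝕜) (m := m)).toContinuousLinearEquiv

theorem co_phi (X : Vec 𝕜 m) (g : Fin r) (i : Fin (m g)) : co (phi X g) i = X g i := rfl

theorem phi_prod (X Y : Vec 𝕜 m) : phi (prod X Y) = phi X * phi Y := by
  funext g
  refine co_ext fun k => ?_
  rw [Pi.mul_apply, co_mul]
  rfl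

theorem phi_unit : phi (unit : Vec 𝕜 m) = 1 := by
  funext g
  refine co_ext fun k => ?_
  rw [Pi.one_apply, co_one]
  rfl

theorem fin_zero {n : ℕ} [NeZero n] (h : 0 < n) : (0 : Fin n) = ⟨0, h⟩ := by
  apply Fin.ext; simp

theorem c0_phi (X : Vec 𝕜 m) (g : Fin r) : c0 (phi X g) = X g ⟨0, NeZero.pos (m g)⟩ := by
  rw [c0_apply, fin_zero (NeZero.pos (m g))]
  rfl

theorem reg_phi {p : Vec 𝕜 m} (hp : Regular p) : Reg (phi p) := by
  refine ⟨fun g a h => ?_, fun g h => hp.2 g h⟩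
  rw [c0_phi, c0_phi]
  exact hp.1 g a _ _ h

/-- the linear form `a₀` -/
noncomputable def cc (c : Vec 𝕜 m) : Al 𝕜 m →ₗ[𝕜] 𝕜 where
  toFun X := ∑ g, ∑ i, c g i * co (X g) i
  map_add' X Y := by
    simp only [Pi.add_apply, co_add, mul_add, Finset.sum_add_distrib]
  map_smul' t X := by
    simp only [Pi.smul_apply, co_smul, RingHom.id_apply, smul_eq_mul, Finset.mul_sum]
    refine Finset.sum_congr rfl fun g _ => Finset.sum_congr rfl fun i _ => ?_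
    ring

theorem a0_eq (c u : Vec 𝕜 m) : a0 c u = cc c (phi u) := rfl

theorem phi_endo (c u Y : Vec 𝕜 m) :
    phi (endo c u Y) = (phi u - cc c (phi u) • (1 : Al 𝕜 m)) * phi Y := by
  rw [endo, phi_prod, map_sub, map_smul, phi_unit, a0_eq]

theorem fderiv_endo (c u X Y : Vec 𝕜 m) :
    fderiv 𝕜 (fun v => endo c v Y) u X = endo c X Y := by
  let f : Vec 𝕜 m →ₗ[𝕜] Vec 𝕜 m :=
    { toFun := fun v => endo c v Y
      map_add' := fun v w => by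
        apply phi.injective
        rw [map_add, phi_endo, phi_endo, phi_endo, map_add, map_add, add_smul]
        ring
      map_smul' := fun t v => by
        apply phi.injective
        rw [RingHom.id_apply, map_smul, phi_endo, phi_endo, map_smul, map_smul, smul_eq_mul,
          ← smul_smul, ← smul_sub, smul_mul_assoc] }
  have h : HasFDerivAt (fun v => endo c v Y) (LinearMap.toContinuousLinearMap f) u :=
    (LinearMap.toContinuousLinearMap f).hasFDerivAt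
  rw [h.fderiv]
  rfl

/-- the connection, transported to the algebra -/
noncomputable def GG (b : Vec 𝕜 m →L[𝕜] Vec 𝕜 m →L[𝕜] Vec 𝕜 m) :
    Al 𝕜 m →ₗ[𝕜] Al 𝕜 m →ₗ[𝕜] Al 𝕜 m :=
  LinearMap.mk₂ 𝕜 (fun X Y => phi (b (phi.symm X) (phi.symm Y)))
    (fun X Y Z => by simp only [map_add, _root_.add_apply])
    (fun t X Y => by simp only [map_smul, _root_.smul_apply])
    (fun X Y Z => by simp only [map_add])
    (fun t X Y => by simp only [map_smul])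

theorem GG_apply (b : Vec 𝕜 m →L[𝕜] Vec 𝕜 m →L[𝕜] Vec 𝕜 m) (X Y : Al 𝕜 m) :
    GG b X Y = phi (b (phi.symm X) (phi.symm Y)) := rfl

theorem GG_phi (b : Vec 𝕜 m →L[𝕜] Vec 𝕜 m →L[𝕜] Vec 𝕜 m) (X Y : Vec 𝕜 m) :
    GG b (phi X) (phi Y) = phi (b X Y) := by
  rw [GG_apply, ContinuousLinearEquiv.symm_apply_apply, ContinuousLinearEquiv.symm_apply_apply]

theorem d_nabla_iff (c : Vec 𝕜 m) (Γ : Vec 𝕜 m → Vec 𝕜 m →L[𝕜] Vec 𝕜 m →L[𝕜] Vec 𝕜 m)
    (u X Y : Vec 𝕜 m) (hs : Γ u X Y = Γ u Y X) :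
    nablaA c Γ u X Y - nablaA c Γ u Y X = 0 ↔
      GG (Γ u) (phi X) (phi u * phi Y) - GG (Γ u) (phi Y) (phi u * phi X) =
        cc c (phi X) • phi Y - cc c (phi Y) • phi X := by
  have e1 : ∀ X Y : Vec 𝕜 m, phi (Γ u X (endo c u Y)) =
      GG (Γ u) (phi X) (phi u * phi Y) - cc c (phi u) • GG (Γ u) (phi X) (phi Y) := by
    intro X Y
    rw [← GG_phi, phi_endo, sub_mul, smul_mul_assoc, one_mul, map_sub, map_smul]
  have key : phi (nablaA c Γ u X Y - nablaA c Γ u Y X) =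
      (GG (Γ u) (phi X) (phi u * phi Y) - GG (Γ u) (phi Y) (phi u * phi X)) -
        (cc c (phi X) • phi Y - cc c (phi Y) • phi X) := by
    rw [nablaA, nablaA, fderiv_endo, fderiv_endo, map_sub, map_sub, map_sub, map_add, map_add,
      e1, e1, phi_endo, phi_endo, phi_endo, phi_endo, GG_phi, GG_phi, hs]
    simp only [sub_mul, smul_mul_assoc, one_mul]
    rw [mul_comm (phi Y) (phi X)]
    abel
  constructor
  · intro h
    rw [h, map_zero] at key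
    exact sub_eq_zero.1 key.symm
  · intro h
    rw [h, sub_self] at key
    exact phi.injective (by rw [key, map_zero])

theorem fderiv_apply2 {g : Vec 𝕜 m → Vec 𝕜 m →L[𝕜] Vec 𝕜 m →L[𝕜] 𝕜} {u : Vec 𝕜 m}
    {g' : Vec 𝕜 m →L[𝕜] Vec 𝕜 m →L[𝕜] Vec 𝕜 m →L[𝕜] 𝕜} (h : HasFDerivAt g g' u)
    (A B X : Vec 𝕜 m) : fderiv 𝕜 (fun v => g v A B) u X = g' X A B := by
  have h1 := (h.clm_apply (hasFDerivAt_const A u)).clm_apply (hasFDerivAt_const B u)
  rw [h1.fderiv]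
  simp

/-- the only-if direction -/
theorem only_if {p : Vec 𝕜 m} (hp : Regular p) (c : Vec 𝕜 m)
    (Γ : Vec 𝕜 m → Vec 𝕜 m →L[𝕜] Vec 𝕜 m →L[𝕜] Vec 𝕜 m) (hΓ : IsConn c Γ p)
    (h : HasSolution Γ p) : ∀ g (i : Fin (m g)), (i : ℕ) ≠ 0 → c g i = 0 := by
  obtain ⟨U, hU, hpU, g, hg, hsol⟩ := h
  have hd : DifferentiableAt 𝕜 g p :=
    ((hg.contDiffAt (hU.mem_nhds hpU)).differentiableAt (by simp))
  have hfd := hd.hasFDerivAt
  set g' := fderiv 𝕜 g p with hg'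
  let th : Al 𝕜 m →ₗ[𝕜] 𝕜 :=
    { toFun := fun X => g p unit (phi.symm X)
      map_add' := fun X Y => by rw [map_add, map_add]
      map_smul' := fun t X => by rw [map_smul, map_smul, RingHom.id_apply] }
  let B : Al 𝕜 m →ₗ[𝕜] Al 𝕜 m →ₗ[𝕜] 𝕜 :=
    LinearMap.mk₂ 𝕜 (fun X Y => g' (phi.symm X) unit (phi.symm Y))
    (fun X Y Z => by simp only [map_add, _root_.add_apply])
    (fun t X Y => by simp only [map_smul, _root_.smul_apply])
    (fun X Y Z => by simp only [map_add])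
    (fun t X Y => by simp only [map_smul])
  have hthp : ∀ X : Vec 𝕜 m, th (phi X) = g p unit X := by
    intro X
    show g p unit (phi.symm (phi X)) = _
    rw [ContinuousLinearEquiv.symm_apply_apply]
  have hBp : ∀ X Y : Vec 𝕜 m, B (phi X) (phi Y) = g' X unit Y := by
    intro X Y
    show g' (phi.symm (phi X)) unit (phi.symm (phi Y)) = _
    rw [ContinuousLinearEquiv.symm_apply_apply, ContinuousLinearEquiv.symm_apply_apply]
  have hprod_unit : ∀ Y : Vec 𝕜 m, prod Y unit = Y := by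
    intro Y
    apply phi.injective
    rw [phi_prod, phi_unit, mul_one]
  have hgth : ∀ v ∈ U, ∀ Y Z, g v Y Z = g v unit (prod Y Z) := by
    intro v hv Y Z
    have h1 := (hsol v hv).invariant Y Z unit
    rw [hprod_unit] at h1
    rw [← h1, (hsol v hv).symm]
  have hs : ∀ X Y, GG (Γ p) X Y = GG (Γ p) Y X := by
    intro X Y
    rw [GG_apply, GG_apply, hΓ.torsion_free]
  have h1 : ∀ X, GG (Γ p) X 1 = 0 := by
    intro X
    rw [GG_apply, ← phi_unit, ContinuousLinearEquiv.symm_apply_apply, hΓ.unit_parallel, map_zero]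
  have hG : ∀ X Y, GG (Γ p) X (phi p * Y) - GG (Γ p) Y (phi p * X) =
      cc c X • Y - cc c Y • X := by
    intro X Y
    obtain ⟨X, rfl⟩ := phi.surjective X
    obtain ⟨Y, rfl⟩ := phi.surjective Y
    exact (d_nabla_iff c Γ p X Y (hΓ.torsion_free X Y)).1 (hΓ.d_nabla X Y)
  have hB : ∀ X Y Z, B X (Y * Z) - th (GG (Γ p) X Y * Z) - th (Y * GG (Γ p) X Z) =
      (1 / 2) * (B (X * Y) Z - B Z (X * Y)) + (1 / 2) * (B (X * Z) Y - B Y (X * Z)) := by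
    intro X Y Z
    obtain ⟨X, rfl⟩ := phi.surjective X
    obtain ⟨Y, rfl⟩ := phi.surjective Y
    obtain ⟨Z, rfl⟩ := phi.surjective Z
    have hst := (hsol p hpU).star X Y Z
    have e1 : fderiv 𝕜 (fun v => g v Y Z) p X = g' X unit (prod Y Z) := by
      have : (fun v => g v Y Z) =ᶠ[𝓝 p] fun v => g v unit (prod Y Z) := by
        filter_upwards [hU.mem_nhds hpU] with v hv
        exact hgth v hv Y Z
      rw [this.fderiv_eq, fderiv_apply2 hfd]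
    rw [nablaG, dTheta, dTheta, e1, fderiv_apply2 hfd, fderiv_apply2 hfd, fderiv_apply2 hfd,
      fderiv_apply2 hfd, hgth p hpU, hgth p hpU Y] at hst
    rw [GG_phi, GG_phi, ← phi_prod, ← phi_prod, ← phi_prod, ← phi_prod, ← phi_prod, hthp, hthp,
      hBp, hBp, hBp, hBp, hBp]
    exact hst
  have hnd : ∀ X, (∀ Y, th (X * Y) = 0) → X = 0 := by
    intro X hX
    obtain ⟨X, rfl⟩ := phi.surjective X
    have : X = 0 := by
      apply (hsol p hpU).nondeg X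
      intro Y
      have := hX (phi Y)
      rw [← phi_prod, hthp] at this
      rw [hgth p hpU, this]
    rw [this, map_zero]
  intro a i hi
  let y : TP 𝕜 (m a) := fun k => if k = i then (1 : 𝕜) else 0
  have hyc : ∀ j, co y j = if j = i then (1 : 𝕜) else 0 := fun j => rfl
  have key := only_main (phi p) (reg_phi hp) (cc c) (GG (Γ p)) th B hs h1 hG hB hnd a y ?_
  · have e : cc c (sg a y) = c a i := by
      show ∑ g, ∑ j, c g j * co ((sg a y : Al 𝕜 m) g) j = _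
      rw [Finset.sum_eq_single a]
      · rw [sg_same]
        simp only [hyc]
        simp
      · intro g _ hg
        refine Finset.sum_eq_zero fun j _ => ?_
        have : (sg a y : Al 𝕜 m) g = 0 := Pi.single_eq_of_ne hg _
        rw [this, co_zero, mul_zero]
      · intro h'; exact absurd (Finset.mem_univ _) h'
    rw [← e]
    exact key
  · rw [c0_apply, hyc, if_neg]
    intro h0
    apply hi
    rw [← h0]
    simp

omit [∀ g, NeZero (m g)] in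
/-- bilinear maps are continuous -/
theorem toCB_aux {W : Type} [NormedAddCommGroup W] [NormedSpace 𝕜 W]
    (b : Vec 𝕜 m →ₗ[𝕜] Vec 𝕜 m →ₗ[𝕜] W) :
    ∃ B : Vec 𝕜 m →L[𝕜] Vec 𝕜 m →L[𝕜] W, ∀ X Y, B X Y = b X Y :=
  ⟨LinearMap.toContinuousLinearMap
    ((LinearMap.toContinuousLinearMap : (Vec 𝕜 m →ₗ[𝕜] W) ≃ₗ[𝕜] (Vec 𝕜 m →L[𝕜] W)).toLinearMap
      ∘ₗ b), fun _ _ => rfl⟩

noncomputable def toCB {W : Type} [NormedAddCommGroup W] [NormedSpace 𝕜 W]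
    (b : Vec 𝕜 m →ₗ[𝕜] Vec 𝕜 m →ₗ[𝕜] W) : Vec 𝕜 m →L[𝕜] Vec 𝕜 m →L[𝕜] W :=
  (toCB_aux b).choose

theorem toCB_apply {W : Type} [NormedAddCommGroup W] [NormedSpace 𝕜 W]
    (b : Vec 𝕜 m →ₗ[𝕜] Vec 𝕜 m →ₗ[𝕜] W) (X Y : Vec 𝕜 m) : toCB b X Y = b X Y :=
  (toCB_aux b).choose_spec X Y

/-- the coefficients of the main variables -/
def mainC (c : Vec 𝕜 m) : Fin r → 𝕜 := fun g => c g 0

theorem cc_main (c : Vec 𝕜 m) (hc : ∀ g (i : Fin (m g)), (i : ℕ) ≠ 0 → c g i = 0) :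
    cc c = cL (mainC c) := by
  refine LinearMap.ext fun X => ?_
  show ∑ g, ∑ i, c g i * co (X g) i = ∑ g, c g 0 * c0 (X g)
  refine Finset.sum_congr rfl fun g _ => ?_
  rw [Finset.sum_eq_single 0]
  · rfl
  · intro i _ hi
    rw [hc g i, zero_mul]
    intro h
    apply hi
    apply Fin.ext
    simpa using h
  · intro h; exact absurd (Finset.mem_univ _) h

theorem conn_unique (c : Vec 𝕜 m) (hc : ∀ g (i : Fin (m g)), (i : ℕ) ≠ 0 → c g i = 0)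
    (Γ : Vec 𝕜 m → Vec 𝕜 m →L[𝕜] Vec 𝕜 m →L[𝕜] Vec 𝕜 m) (u : Vec 𝕜 m) (hu : Reg (phi u))
    (hΓ : IsConn c Γ u) (X Y : Vec 𝕜 m) :
    phi (Γ u X Y) = Gam (Xi (mainC c) (phi u)) (phi X) (phi Y) := by
  have hP := Xi_P (mainC c) (phi u) hu
  have h := uniq (phi u) hu (fun X Y => GG (Γ u) X Y - Gam (Xi (mainC c) (phi u)) X Y)
    ?_ ?_ ?_ ?_ ?_ (phi X) (phi Y)
  · rw [← GG_phi]
    exact sub_eq_zero.1 h
  · intro X Y Z
    simp only [map_add, Gam, mul_add, add_mul]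
    abel
  · intro X t Y
    simp only [map_smul, Gam, mul_smul_comm, smul_mul_assoc, smul_sub]
  · intro X Y
    show GG (Γ u) X Y - Gam _ X Y = GG (Γ u) Y X - Gam _ Y X
    rw [Gam_symm, GG_apply, GG_apply, hΓ.torsion_free]
  · intro X
    show GG (Γ u) X 1 - Gam _ X 1 = 0
    rw [Gam_one _ (Xi_one _ _), GG_apply, ← phi_unit, ContinuousLinearEquiv.symm_apply_apply,
      hΓ.unit_parallel, map_zero, sub_zero]
  · intro X Y
    show GG (Γ u) X (phi u * Y) - Gam _ X (phi u * Y) = GG (Γ u) Y (phi u * X) - Gam _ Y (phi u * X)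
    have h1 := Gam_eq (Xi (mainC c) (phi u)) (cL (mainC c)) (phi u) (mu (mainC c)) hP X Y
    obtain ⟨X, rfl⟩ := phi.surjective X
    obtain ⟨Y, rfl⟩ := phi.surjective Y
    have h2 := (d_nabla_iff c Γ u X Y (hΓ.torsion_free X Y)).1 (hΓ.d_nabla X Y)
    rw [cc_main c hc, ← h1] at h2
    linear_combination h2

theorem isConn_of (c : Vec 𝕜 m) (hc : ∀ g (i : Fin (m g)), (i : ℕ) ≠ 0 → c g i = 0)
    (Γ : Vec 𝕜 m → Vec 𝕜 m →L[𝕜] Vec 𝕜 m →L[𝕜] Vec 𝕜 m) (u : Vec 𝕜 m) (hu : Reg (phi u))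
    (hΓ : ∀ X Y, phi (Γ u X Y) = Gam (Xi (mainC c) (phi u)) (phi X) (phi Y)) : IsConn c Γ u where
  torsion_free X Y := by
    apply phi.injective
    rw [hΓ, hΓ, Gam_symm]
  unit_parallel X := by
    apply phi.injective
    rw [hΓ, phi_unit, Gam_one _ (Xi_one _ _), map_zero]
  d_nabla X Y := by
    have hG : ∀ X Y : Al 𝕜 m, GG (Γ u) X Y = Gam (Xi (mainC c) (phi u)) X Y := by
      intro X Y
      obtain ⟨X, rfl⟩ := phi.surjective X
      obtain ⟨Y, rfl⟩ := phi.surjective Y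
      rw [GG_phi, hΓ]
    refine (d_nabla_iff c Γ u X Y ?_).2 ?_
    · apply phi.injective
      rw [hΓ, hΓ, Gam_symm]
    · rw [hG, hG, cc_main c hc]
      exact Gam_eq (Xi (mainC c) (phi u)) (cL (mainC c)) (phi u) (mu (mainC c))
        (Xi_P (mainC c) (phi u) hu) _ _

theorem top_nondeg {n : ℕ} [NeZero n] (w : TP 𝕜 n) (h : ∀ y, top (w * y) = 0) : w = 0 := by
  refine co_ext fun ⟨k, hk⟩ => ?_
  have h1 := h (ep 𝕜 n ^ (n - 1 - k))
  rw [mul_comm, top_apply, co_ep_pow_mul _ _ _ _ (Nat.sub_le _ _)] at h1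
  rw [co_zero, ← h1]
  congr 1
  apply Fin.ext
  show k = n - 1 - (n - 1 - k)
  omega

/-- the sum of the top coefficients -/
noncomputable def Tp : Al 𝕜 m →ₗ[𝕜] 𝕜 where
  toFun X := ∑ g, top (X g)
  map_add' X Y := by simp only [Pi.add_apply, map_add, Finset.sum_add_distrib]
  map_smul' t X := by
    simp only [Pi.smul_apply, map_smul, RingHom.id_apply, smul_eq_mul, Finset.mul_sum]

theorem Tp_sg (g : Fin r) (x : TP 𝕜 (m g)) : Tp (sg g x : Al 𝕜 m) = top x := by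
  show ∑ a, top ((sg g x : Al 𝕜 m) a) = _
  rw [Finset.sum_eq_single g]
  · rw [sg_same]
  · intro a _ ha
    have : (sg g x : Al 𝕜 m) a = 0 := Pi.single_eq_of_ne ha _
    rw [this, map_zero]
  · intro h'; exact absurd (Finset.mem_univ _) h'

/-- the bilinear form attached to an element -/
noncomputable def Psi0 (M : Al 𝕜 m) : Vec 𝕜 m →ₗ[𝕜] Vec 𝕜 m →ₗ[𝕜] 𝕜 :=
  LinearMap.mk₂ 𝕜 (fun Y Z => Tp (M * (phi Y * phi Z)))
    (fun X Y Z => by simp only [map_add, add_mul, mul_add])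
    (fun t X Y => by simp only [map_smul, smul_mul_assoc, mul_smul_comm])
    (fun X Y Z => by simp only [map_add, mul_add])
    (fun t X Y => by simp only [map_smul, mul_smul_comm])

/-- the bilinear form attached to an element, as a linear map -/
noncomputable def Psi1 : Al 𝕜 m →ₗ[𝕜] (Vec 𝕜 m →L[𝕜] Vec 𝕜 m →L[𝕜] 𝕜) where
  toFun := fun M => toCB (Psi0 M)
  map_add' := fun M N => by
    refine ContinuousLinearMap.ext fun X => ContinuousLinearMap.ext fun Y => ?_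
    rw [toCB_apply]
    simp only [_root_.add_apply, toCB_apply]
    show Tp ((M + N) * (phi X * phi Y)) = Tp (M * (phi X * phi Y)) + Tp (N * (phi X * phi Y))
    rw [add_mul, map_add]
  map_smul' := fun t M => by
    refine ContinuousLinearMap.ext fun X => ContinuousLinearMap.ext fun Y => ?_
    rw [toCB_apply]
    simp only [_root_.smul_apply, toCB_apply, RingHom.id_apply]
    show Tp ((t • M) * (phi X * phi Y)) = t • Tp (M * (phi X * phi Y))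
    rw [smul_mul_assoc, map_smul]

variable (𝕜 m) in
/-- the bilinear form attached to an element, as a continuous linear map -/
noncomputable def Psi : Al 𝕜 m →L[𝕜] (Vec 𝕜 m →L[𝕜] Vec 𝕜 m →L[𝕜] 𝕜) :=
  ⟨Psi1, by
    have h := LinearMap.continuous_of_finiteDimensional (𝕜 := 𝕜) (E := Al 𝕜 m)
      (F' := Vec 𝕜 m →L[𝕜] Vec 𝕜 m →L[𝕜] 𝕜) Psi1
    exact h⟩

theorem Psi_apply (M : Al 𝕜 m) (Y Z : Vec 𝕜 m) :
    Psi 𝕜 m M Y Z = Tp (M * (phi Y * phi Z)) :=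
  toCB_apply (Psi0 M) Y Z

theorem hgd_aux {M : Vec 𝕜 m → Al 𝕜 m} {D : Vec 𝕜 m →L[𝕜] Al 𝕜 m} {u : Vec 𝕜 m}
    (h : HasFDerivAt M D u) : HasFDerivAt (fun u => Psi 𝕜 m (M u)) (Psi 𝕜 m ∘L D) u := by
  have h1 : HasFDerivAt (𝕜 := 𝕜) (E := Al 𝕜 m) (F := Vec 𝕜 m →L[𝕜] Vec 𝕜 m →L[𝕜] 𝕜)
    (Psi 𝕜 m) (Psi 𝕜 m) (M u) := by apply ContinuousLinearMap.hasFDerivAt
  exact HasFDerivAt.comp (𝕜 := 𝕜) (E := Vec 𝕜 m) (F := Al 𝕜 m)
    (G := Vec 𝕜 m →L[𝕜] Vec 𝕜 m →L[𝕜] 𝕜) u h1 h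

theorem fd_aux {M : Vec 𝕜 m → Al 𝕜 m} {D : Vec 𝕜 m →L[𝕜] Al 𝕜 m} {u : Vec 𝕜 m}
    (h : HasFDerivAt M D u) (A B X : Vec 𝕜 m) :
    fderiv 𝕜 (fun v => Psi 𝕜 m (M v) A B) u X = Tp (D X * (phi A * phi B)) := by
  have h2 := fderiv_apply2 (g := fun v => Psi 𝕜 m (M v)) (hgd_aux h) A B X
  exact h2.trans (Psi_apply (D X) A B)

/-- the bilinear form `(X, Y) ↦ Tp (M * (X * Y))` satisfies `(⋆)` -/
theorem star_aux (c' : Fin r → 𝕜) (Γ : Vec 𝕜 m → Vec 𝕜 m →L[𝕜] Vec 𝕜 m →L[𝕜] Vec 𝕜 m)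
    {M : Vec 𝕜 m → Al 𝕜 m} {D : Vec 𝕜 m →L[𝕜] Al 𝕜 m} {u : Vec 𝕜 m}
    (hD2 : HasFDerivAt M D u) (hD1 : ∀ X, D X = (-2 : 𝕜) • (Xi c' (phi u) (phi X) * M u))
    (hG : ∀ X Y, phi (Γ u X Y) = Gam (Xi c' (phi u)) (phi X) (phi Y)) (X Y Z : Vec 𝕜 m) :
    nablaG Γ (fun u => Psi 𝕜 m (M u)) u X Y Z =
    1 / 2 * dTheta (fun u => Psi 𝕜 m (M u)) u (prod X Y) Z +
      1 / 2 * dTheta (fun u => Psi 𝕜 m (M u)) u (prod X Z) Y := by
  let th : Al 𝕜 m →ₗ[𝕜] 𝕜 :=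
    { toFun := fun W => Tp (M u * W)
      map_add' := fun V W => by rw [mul_add, map_add]
      map_smul' := fun t W => by rw [mul_smul_comm, map_smul]; rfl }
  have hthd : ∀ W, Tp (M u * W) = th W := fun W => rfl
  have hst := star_of (Xi c' (phi u)) th
    (fun X Y => -2 * th (Xi c' (phi u) X * Y)) (fun X Y => rfl) (phi X) (phi Y) (phi Z)
  have e2 : ∀ X A B : Vec 𝕜 m, fderiv 𝕜 (fun v => Psi 𝕜 m (M v) A B) u X =
      -2 * th (Xi c' (phi u) (phi X) * (phi A * phi B)) := by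
    intro X A B
    rw [fd_aux hD2, hD1, smul_mul_assoc, map_smul, smul_eq_mul, ← hthd]
    congr 2
    ring
  have e3 : nablaG Γ (fun u => Psi 𝕜 m (M u)) u X Y Z =
      fderiv 𝕜 (fun v => Psi 𝕜 m (M v) Y Z) u X - Psi 𝕜 m (M u) (Γ u X Y) Z -
        Psi 𝕜 m (M u) Y (Γ u X Z) := rfl
  have e4 : ∀ A B : Vec 𝕜 m, dTheta (fun u => Psi 𝕜 m (M u)) u A B =
      fderiv 𝕜 (fun v => Psi 𝕜 m (M v) unit B) u A -
        fderiv 𝕜 (fun v => Psi 𝕜 m (M v) unit A) u B := fun _ _ => rfl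
  rw [e3, e4, e4, e2, e2, e2, e2, e2, Psi_apply, Psi_apply, hG, hG, phi_unit, one_mul, one_mul,
    one_mul, one_mul, phi_prod, phi_prod, hthd, hthd]
  exact hst

/-- the if direction -/
theorem if_part {p : Vec 𝕜 m} (hp : Regular p) (c : Vec 𝕜 m)
    (hc : ∀ g (i : Fin (m g)), (i : ℕ) ≠ 0 → c g i = 0)
    (Γ : Vec 𝕜 m → Vec 𝕜 m →L[𝕜] Vec 𝕜 m →L[𝕜] Vec 𝕜 m) (hΓ : ∀ᶠ u in 𝓝 p, IsConn c Γ u) :
    HasSolution Γ p := by
  obtain ⟨M, hM⟩ := exists_M ((phi : Vec 𝕜 m ≃L[𝕜] Al 𝕜 m) : Vec 𝕜 m →L[𝕜] Al 𝕜 m) (mainC c) p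
    (reg_phi hp)
  obtain ⟨U, hUsub, hU, hpU⟩ := eventually_nhds_iff.1 (hM.and hΓ)
  refine ⟨U, hU, hpU, fun u => Psi 𝕜 m (M u), ?_, ?_⟩
  · intro u hu
    obtain ⟨⟨-, -, -, h⟩, -⟩ := hUsub u hu
    have h1 : ContDiff 𝕜 ∞ (Psi 𝕜 m) := by apply ContinuousLinearMap.contDiff
    have h2 : ContDiffAt 𝕜 ∞ (fun u => Psi 𝕜 m (M u)) u :=
      ContDiffAt.comp u h1.contDiffAt (h.of_le le_top)
    exact h2.contDiffWithinAt
  · intro u hu
    obtain ⟨⟨hreg, hunit, ⟨D, hD1, hD2⟩, -⟩, hconn⟩ := hUsub u hu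
    have hreg' : Reg (phi u) := hreg
    have hG := conn_unique c hc Γ u hreg' hconn
    have hD1' : ∀ X, D X = (-2 : 𝕜) • (Xi (mainC c) (phi u) (phi X) * M u) := hD1
    refine ⟨?_, ?_, ?_, ?_⟩
    · intro X Y
      show Psi 𝕜 m (M u) X Y = Psi 𝕜 m (M u) Y X
      rw [Psi_apply, Psi_apply, mul_comm (phi X)]
    · intro X hX
      have hX' : ∀ Y, Psi 𝕜 m (M u) X Y = 0 := hX
      apply phi.injective
      rw [map_zero]
      funext g
      rw [Pi.zero_apply]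
      have h0 : M u g * phi X g = 0 := by
        apply top_nondeg
        intro y
        have h1 := hX' (phi.symm (sg g y))
        rw [Psi_apply, ContinuousLinearEquiv.apply_symm_apply, mul_sg, mul_sg, Tp_sg] at h1
        rw [mul_assoc]
        exact h1
      exact (hunit g).mul_right_eq_zero.1 h0
    · intro X Y Z
      show Psi 𝕜 m (M u) (prod X Y) Z = Psi 𝕜 m (M u) (prod X Z) Y
      rw [Psi_apply, Psi_apply, phi_prod, phi_prod, mul_assoc (phi X), mul_assoc (phi X),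
        mul_comm (phi Y)]
    · exact star_aux (mainC c) Γ hD2 hD1' hG

theorem exists_conn {p : Vec 𝕜 m} (hp : Regular p) (c : Vec 𝕜 m)
    (hc : ∀ g (i : Fin (m g)), (i : ℕ) ≠ 0 → c g i = 0) :
    ∃ Γ : Vec 𝕜 m → Vec 𝕜 m →L[𝕜] Vec 𝕜 m →L[𝕜] Vec 𝕜 m, ∀ᶠ u in 𝓝 p, IsConn c Γ u := by
  obtain ⟨M, hM⟩ := exists_M ((phi : Vec 𝕜 m ≃L[𝕜] Al 𝕜 m) : Vec 𝕜 m →L[𝕜] Al 𝕜 m) (mainC c) p
    (reg_phi hp)
  let b : Vec 𝕜 m → Vec 𝕜 m →ₗ[𝕜] Vec 𝕜 m →ₗ[𝕜] Vec 𝕜 m := fun u =>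
    LinearMap.mk₂ 𝕜 (fun X Y => phi.symm (Gam (Xi (mainC c) (phi u)) (phi X) (phi Y)))
    (fun X Y Z => by
      rw [← map_add]
      congr 1
      simp only [Gam, map_add, add_mul, mul_add]
      abel)
    (fun t X Y => by
      rw [← map_smul]
      congr 1
      simp only [Gam, map_smul, smul_mul_assoc, mul_smul_comm, smul_sub])
    (fun X Y Z => by
      rw [← map_add]
      congr 1
      simp only [Gam, map_add, add_mul, mul_add]
      abel)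
    (fun t X Y => by
      rw [← map_smul]
      congr 1
      simp only [Gam, map_smul, smul_mul_assoc, mul_smul_comm, smul_sub])
  refine ⟨fun u => toCB (b u), ?_⟩
  filter_upwards [hM] with u hu
  refine isConn_of c hc _ u hu.1 fun X Y => ?_
  show phi (toCB (b u) X Y) = _
  rw [toCB_apply]
  exact phi.apply_symm_apply _

end proof

/-- The answer to Q1 is positive. -/
theorem result0 (𝕜 : Type) [RCLike 𝕜] (r : ℕ) (m : Fin r → ℕ) (hm : ∀ g, 0 < m g)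
    (p : Vec 𝕜 m) (hp : Regular p) (c : Vec 𝕜 m) :
    (∀ Γ : Vec 𝕜 m → Vec 𝕜 m →L[𝕜] Vec 𝕜 m →L[𝕜] Vec 𝕜 m, (∀ᶠ u in 𝓝 p, IsConn c Γ u) →
      (HasSolution Γ p ↔ ∀ g (i : Fin (m g)), (i : ℕ) ≠ 0 → c g i = 0)) ∧
    ((∀ g (i : Fin (m g)), (i : ℕ) ≠ 0 → c g i = 0) →
      ∃ Γ : Vec 𝕜 m → Vec 𝕜 m →L[𝕜] Vec 𝕜 m →L[𝕜] Vec 𝕜 m, ∀ᶠ u in 𝓝 p, IsConn c Γ u) := by
  have : ∀ g, NeZero (m g) := fun g => ⟨(hm g).ne'⟩
  exact ⟨fun Γ hΓ => ⟨fun h => only_if hp c Γ hΓ.self_of_nhds h, fun hc => if_part hp c hc Γ hΓ⟩,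
    fun hc => exists_conn hp c hc⟩

end Pool.Agent.R332.FM.CLM
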