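import Pool.Agent.R332.FM.Prod

/-!
# The only-if direction: algebra at one point
-/

set_option autoImplicit false
set_option linter.unusedVariables false
set_option linter.unusedSectionVars false

namespace Pool.Agent.R332.FM

open Finset TP

variable {𝕜 : Type} [RCLike 𝕜] {r : ℕ} {m : Fin r → ℕ} [∀ g, NeZero (m g)]

theorem nu_top_mul {n : ℕ} [NeZero n] (u y : TP 𝕜 n) :
    nu u ^ (n - 1) * y = c0 y • nu u ^ (n - 1) := by
  have hy : y = c0 y • (1 : TP 𝕜 n) + ep 𝕜 n * SS y := by rw [ep_SS]; abel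
  have h0 : nu u ^ (n - 1) * (ep 𝕜 n * SS y) = 0 := by
    have : nu u ^ (n - 1) * (ep 𝕜 n * SS y) = ep 𝕜 n ^ n * (SS u ^ (n - 1) * SS y) := by
      rw [nu_eq, mul_pow]
      have hn : ep 𝕜 n ^ n = ep 𝕜 n ^ (n - 1) * ep 𝕜 n := by
        rw [← pow_succ]; congr 1; have := NeZero.pos n; omega
      rw [hn]; ring
    rw [this]
    refine co_ext fun ⟨k, hk⟩ => ?_
    rw [co_ep_pow_mul_lt _ n k hk hk, co_zero]
  conv_lhs => rw [hy]
  rw [mul_add, h0, add_zero, mul_smul_comm, mul_one]

theorem N_top_mul (u : Al 𝕜 m) (a : Fin r) (Y : Al 𝕜 m) :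
    N u a (m a - 1) * Y = c0 (Y a) • N u a (m a - 1) := by
  unfold N
  rw [mul_comm, mul_sg, mul_comm, nu_top_mul, sg_smul]

theorem N_top_ne (u : Al 𝕜 m) (hu : Reg u) (a : Fin r) (h : 1 < m a) :
    N u a (m a - 1) ≠ 0 := by
  intro h0
  have h1 : nu (u a) ^ (m a - 1) = 0 := by
    have := congrFun h0 a
    unfold N at this
    rwa [sg_same, Pi.zero_apply] at this
  have h2 := co_nu_pow (u a) (m a - 1) (by omega)
  rw [h1, co_zero, c0_SS _ h] at h2
  exact pow_ne_zero _ (hu.nz a h) h2.symm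

section

variable (u : Al 𝕜 m) (hu : Reg u) (c : Al 𝕜 m →ₗ[𝕜] 𝕜)
  (G : Al 𝕜 m →ₗ[𝕜] Al 𝕜 m →ₗ[𝕜] Al 𝕜 m) (th : Al 𝕜 m →ₗ[𝕜] 𝕜)
  (B : Al 𝕜 m →ₗ[𝕜] Al 𝕜 m →ₗ[𝕜] 𝕜)
  (hs : ∀ X Y, G X Y = G Y X) (h1 : ∀ X, G X 1 = 0)
  (hG : ∀ X Y, G X (u * Y) - G Y (u * X) = c X • Y - c Y • X)

include hu hs h1 hG

theorem exH_ne (a g : Fin r) (hga : g ≠ a) : ∀ j k : ℕ, m g ≤ k + j →
    ∃ H : Al 𝕜 m, ∀ y : TP 𝕜 (m a), N u a 0 * G (N u g k) (sg a y) = H * sg a y := by
  intro j
  induction j with
  | zero =>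
    intro k hk
    refine ⟨0, fun y => ?_⟩
    rw [N_ge u g k (by omega)]
    simp
  | succ j ih =>
    intro k hk
    obtain ⟨H', hH'⟩ := ih (k + 1) (by omega)
    have hun : IsUnit (u a - c0 (u g) • (1 : TP 𝕜 (m a))) := by
      apply isUnit_of_c0
      rw [map_sub, map_smul, c0_one, smul_eq_mul, mul_one]
      exact sub_ne_zero.2 (hu.ne a g hga.symm)
    refine ⟨(H' + c (N u g k) • 1) * sg a (Ring.inverse (u a - c0 (u g) • (1 : TP 𝕜 (m a)))),
      fun y => ?_⟩
    set iv := Ring.inverse (u a - c0 (u g) • (1 : TP 𝕜 (m a))) with hiv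
    have h := hG (N u g k) (sg a (iv * y))
    have e1 : u * sg a (iv * y) = c0 (u g) • sg a (iv * y) + sg a y := by
      rw [mul_sg, ← sg_smul, ← sg_add]
      congr 1
      have : u a * (iv * y) = c0 (u g) • (iv * y) +
          (u a - c0 (u g) • (1 : TP 𝕜 (m a))) * iv * y := by
        rw [sub_mul, sub_mul, smul_mul_assoc, one_mul, smul_mul_assoc, mul_assoc]; abel
      rw [this, hiv, Ring.mul_inverse_cancel _ hun, one_mul]
    rw [e1, mul_N, map_add, map_add, map_smul, map_smul, hs (sg a (iv * y)) (N u g k),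
      hs (sg a (iv * y)) (N u g (k + 1))] at h
    have e2 : G (N u g k) (sg a y) = G (N u g (k + 1)) (sg a (iv * y)) +
        c (N u g k) • sg a (iv * y) - c (sg a (iv * y)) • N u g k := by
      have h' : G (N u g k) (sg a y) - G (N u g (k + 1)) (sg a (iv * y)) =
          c (N u g k) • sg a (iv * y) - c (sg a (iv * y)) • N u g k := by
        rw [← h]; abel
      rw [add_sub_assoc, ← h']; abel
    have e3 : N u a 0 * N u g k = 0 := sg_mul_ne hga.symm _ _
    have e4 : N u a 0 * sg a (iv * y) = sg a (iv * y) := by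
      unfold N; rw [sg_mul, pow_zero, one_mul]
    rw [e2, mul_sub, mul_add, mul_smul_comm, mul_smul_comm, e3, e4, smul_zero, sub_zero, hH',
      ← sg_mul, add_mul, add_mul, smul_mul_assoc, smul_mul_assoc, one_mul, mul_assoc]

theorem exH (a : Fin r) :
    ∃ H : Al 𝕜 m, ∀ y : TP 𝕜 (m a), N u a 0 * G (N u a 0) (sg a y) = H * sg a y := by
  have h : ∀ g : Fin r, ∃ H : Al 𝕜 m, g ≠ a → ∀ y : TP 𝕜 (m a),
      N u a 0 * G (N u g 0) (sg a y) = H * sg a y := by
    intro g
    by_cases hga : g = a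
    · exact ⟨0, fun h => absurd hga h⟩
    · obtain ⟨H, hH⟩ := exH_ne u hu c G hs h1 hG a g hga (m g) 0 (by omega)
      exact ⟨H, fun _ => hH⟩
  choose H hH using h
  refine ⟨-∑ g ∈ univ.erase a, H g, fun y => ?_⟩
  have h0 : ∑ g, N u a 0 * G (N u g 0) (sg a y) = 0 := by
    rw [← Finset.mul_sum]
    have : ∑ g, G (N u g 0) (sg a y) = G (∑ g, N u g 0) (sg a y) := by
      rw [map_sum, LinearMap.sum_apply]
    rw [this, sum_N_zero, hs, h1, mul_zero]
  rw [← Finset.add_sum_erase _ _ (Finset.mem_univ a)] at h0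
  have h2 : ∑ g ∈ univ.erase a, N u a 0 * G (N u g 0) (sg a y) =
      (∑ g ∈ univ.erase a, H g) * sg a y := by
    rw [Finset.sum_mul]
    exact Finset.sum_congr rfl fun g hg => hH g (Finset.mem_erase.1 hg).1 y
  rw [h2] at h0
  rw [neg_mul]
  exact eq_neg_of_add_eq_zero_left h0

theorem exHb (a : Fin r) : ∃ H : Al 𝕜 m, ∀ b : ℕ, N u a 0 * G (N u a 1) (N u a b) =
    H * N u a (b + 1) - c (N u a 0) • N u a b + c (N u a b) • N u a 0 := by
  obtain ⟨H, hH⟩ := exH u hu c G hs h1 hG a
  refine ⟨H, fun b => ?_⟩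
  have h := hG (N u a 0) (N u a b)
  rw [mul_N, mul_N, map_add, map_add, map_smul, map_smul, hs (N u a b) (N u a 0), zero_add,
    hs (N u a b) (N u a 1)] at h
  have e2 : G (N u a 1) (N u a b) = G (N u a 0) (N u a (b + 1)) - c (N u a 0) • N u a b +
      c (N u a b) • N u a 0 := by
    have h' : G (N u a 0) (N u a (b + 1)) - G (N u a 1) (N u a b) =
        c (N u a 0) • N u a b - c (N u a b) • N u a 0 := by
      rw [← h]; abel
    have h'' : G (N u a 1) (N u a b) = G (N u a 0) (N u a (b + 1)) -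
        (c (N u a 0) • N u a b - c (N u a b) • N u a 0) := by
      rw [← h']; abel
    rw [h'']; abel
  have e3 : N u a 0 * N u a b = N u a b := by rw [N_mul, zero_add]
  have e4 : N u a 0 * N u a 0 = N u a 0 := by rw [N_mul]
  have e5 : N u a 0 * G (N u a 0) (N u a (b + 1)) = H * N u a (b + 1) := hH _
  rw [e2, mul_add, mul_sub, mul_smul_comm, mul_smul_comm, e3, e4, e5]

theorem T_eq (a : Fin r) (i j : ℕ) (hij : m a ≤ i + j) :
    G (N u a 1) (N u a i * N u a j) - G (N u a 1) (N u a i) * N u a j -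
      N u a i * G (N u a 1) (N u a j) =
    -(c (N u a i) • N u a j) - c (N u a j) • N u a i := by
  obtain ⟨H, hH⟩ := exHb u hu c G hs h1 hG a
  have e0 : N u a i * N u a j = 0 := by rw [N_mul, N_ge u a _ hij]
  have key : ∀ i j : ℕ, m a ≤ i + j →
      G (N u a 1) (N u a i) * N u a j = c (N u a i) • N u a j := by
    intro i j hij
    have e1 : G (N u a 1) (N u a i) * N u a j = (N u a 0 * G (N u a 1) (N u a i)) * N u a j := by
      have : N u a j = N u a 0 * N u a j := by rw [N_mul, zero_add]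
      conv_lhs => rw [this]
      ring
    rw [e1, hH, add_mul, sub_mul, mul_assoc, N_mul, smul_mul_assoc, smul_mul_assoc, N_mul, N_mul,
      N_ge u a _ (show m a ≤ i + 1 + j by omega), N_ge u a _ hij, mul_zero, smul_zero, sub_zero,
      zero_add, zero_add]
  have e2 := key i j hij
  have e3 := key j i (by omega)
  rw [e0, map_zero, e2, mul_comm (N u a i), e3]
  abel

variable (hB : ∀ X Y Z, B X (Y * Z) - th (G X Y * Z) - th (Y * G X Z) =
      (1 / 2) * (B (X * Y) Z - B Z (X * Y)) + (1 / 2) * (B (X * Z) Y - B Y (X * Z)))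
  (hnd : ∀ X, (∀ Y, th (X * Y) = 0) → X = 0)

include hB

omit hu hG in
theorem W_eq (X Y Z : Al 𝕜 m) :
    (B (X * Y) Z - B Z (X * Y)) / 2 + (B (X * Z) Y - B Y (X * Z)) / 2 +
      (B (Y * Z) X - B X (Y * Z)) / 2 = B (X * (Y * Z)) 1 / 2 +
      th (G X (Y * Z) - G X Y * Z - Y * G X Z) := by
  have hg1 : ∀ X, G 1 X = 0 := fun X => by rw [hs, h1]
  have hb1 : ∀ X, B 1 X = 0 := by
    intro X
    have h := hB 1 X 1
    rw [mul_one, hg1, hg1, zero_mul, mul_zero, map_zero, sub_zero, sub_zero, one_mul, one_mul] at h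
    rw [h]; ring
  have h2 := hB X (Y * Z) 1
  rw [mul_one, mul_one, mul_one, h1, mul_zero, map_zero, sub_zero, hb1] at h2
  have h3 := hB X Y Z
  rw [map_sub, map_sub]
  linear_combination h2 - h3

include hnd

theorem only_step (a : Fin r) (k : ℕ) (hk : 1 ≤ k) (hkm : k < m a)
    (hc : ∀ k', k < k' → c (N u a k') = 0) : c (N u a k) = 0 := by
  have hW := W_eq G th B hs h1 hB
  set M := m a with hM
  set w : ℕ → 𝕜 := fun i => (B (N u a i) (N u a (M + k - i)) - B (N u a (M + k - i)) (N u a i)) / 2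
    with hw
  have hstep : ∀ i, 1 ≤ i → i + 2 ≤ M + k → w (i + 1) - w i =
      -(c (N u a i) * th (N u a (M + k - 1 - i))) - c (N u a (M + k - 1 - i)) * th (N u a i) := by
    intro i hi1 hi2
    have h := hW (N u a 1) (N u a i) (N u a (M + k - 1 - i))
    rw [T_eq u hu c G hs h1 hG a i (M + k - 1 - i) (by omega)] at h
    rw [N_mul, N_mul, N_mul, N_mul, N_ge u a (i + (M + k - 1 - i)) (by omega),
      N_ge u a (1 + (i + (M + k - 1 - i))) (by omega), map_zero, LinearMap.zero_apply,
      LinearMap.zero_apply, map_zero] at h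
    rw [map_sub, map_neg, map_smul, map_smul, smul_eq_mul, smul_eq_mul] at h
    simp only [hw]
    have e1 : M + k - (i + 1) = M + k - 1 - i := by omega
    have e2 : 1 + (M + k - 1 - i) = M + k - i := by omega
    have e3 : 1 + i = i + 1 := by omega
    rw [e2, e3] at h
    rw [e1]
    linear_combination h
  have htel : ∑ i ∈ range (M + k - 2), (w (i + 1 + 1) - w (i + 1)) = w (M + k - 2 + 1) - w (0 + 1) :=
    Finset.sum_range_sub (fun i => w (i + 1)) (M + k - 2)
  have hw1 : w (0 + 1) = 0 := by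
    simp only [hw]
    rw [N_ge u a (M + k - (0 + 1)) (by omega)]
    simp
  have hw2 : w (M + k - 2 + 1) = 0 := by
    simp only [hw]
    rw [N_ge u a (M + k - 2 + 1) (by omega)]
    simp
  rw [hw1, hw2, sub_zero] at htel
  have hsum : ∑ i ∈ range (M + k - 2), (w (i + 1 + 1) - w (i + 1)) =
      ∑ i ∈ range (M + k - 2), (-(c (N u a (i + 1)) * th (N u a (M + k - 1 - (i + 1)))) -
        c (N u a (M + k - 1 - (i + 1))) * th (N u a (i + 1))) := by
    refine Finset.sum_congr rfl fun i hi => ?_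
    have := Finset.mem_range.1 hi
    exact hstep (i + 1) (by omega) (by omega)
  rw [hsum, Finset.sum_sub_distrib, Finset.sum_neg_distrib] at htel
  have s1 : ∑ i ∈ range (M + k - 2), c (N u a (i + 1)) * th (N u a (M + k - 1 - (i + 1))) =
      c (N u a k) * th (N u a (M - 1)) := by
    rw [Finset.sum_eq_single (k - 1)]
    · have e1 : k - 1 + 1 = k := by omega
      have e2 : M + k - 1 - k = M - 1 := by omega
      rw [e1, e2]
    · intro i hi hik
      have := Finset.mem_range.1 hi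
      rcases Nat.lt_or_ge (i + 1) k with h | h
      · rw [N_ge u a (M + k - 1 - (i + 1)) (by omega), map_zero, mul_zero]
      · rw [hc (i + 1) (by omega), zero_mul]
    · intro h
      exact absurd (Finset.mem_range.2 (by omega)) h
  have s2 : ∑ i ∈ range (M + k - 2), c (N u a (M + k - 1 - (i + 1))) * th (N u a (i + 1)) =
      c (N u a k) * th (N u a (M - 1)) := by
    rw [Finset.sum_eq_single (M - 2)]
    · have e1 : M + k - 1 - (M - 2 + 1) = k := by omega
      have e2 : M - 2 + 1 = M - 1 := by omega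
      rw [e1, e2]
    · intro i hi hik
      have := Finset.mem_range.1 hi
      rcases Nat.lt_or_ge (i + 1) (M - 1) with h | h
      · rw [hc (M + k - 1 - (i + 1)) (by omega), zero_mul]
      · rw [N_ge u a (i + 1) (by omega), map_zero, mul_zero]
    · intro h
      exact absurd (Finset.mem_range.2 (by omega)) h
  rw [s1, s2] at htel
  have h0 : c (N u a k) * th (N u a (M - 1)) = 0 := by
    have h2 : (2 : 𝕜) * (c (N u a k) * th (N u a (M - 1))) = 0 := by linear_combination -htel
    exact (mul_eq_zero.1 h2).resolve_left two_ne_zero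
  rcases mul_eq_zero.1 h0 with h | h
  · exact h
  · exfalso
    apply N_top_ne u hu a (by omega)
    apply hnd
    intro Y
    rw [N_top_mul, map_smul, h, smul_zero]

theorem only_all (a : Fin r) : ∀ k, 1 ≤ k → c (N u a k) = 0 := by
  have key : ∀ j k, 1 ≤ k → m a ≤ k + j → c (N u a k) = 0 := by
    intro j
    induction j with
    | zero => intro k _ h; rw [N_ge u a k (by omega), map_zero]
    | succ j ih =>
      intro k hk h
      rcases Nat.lt_or_ge k (m a) with h' | h'
      · refine only_step u hu c G th B hs h1 hG hB hnd a k hk h' fun k' hk' => ?_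
        exact ih k' (by omega) (by omega)
      · rw [N_ge u a k h', map_zero]
  intro k hk
  exact key (m a) k hk (by omega)

/-- the linear form only involves the main variables -/
theorem only_main (a : Fin r) (y : TP 𝕜 (m a)) (hy : c0 y = 0) : c (sg a y) = 0 := by
  refine powers (c ∘ₗ sgL a) (u a) (hu.nz a) 1 (fun k hk => ?_) y (fun i hi hi1 => ?_)
  · exact only_all u hu c G th B hs h1 hG hB hnd a k hk
  · have : i = 0 := by omega
    subst this
    exact hy

end

end Pool.Agent.R332.FM
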