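import Pool.Agent.R332.FM.Blk2

/-!
# Products of Jordan blocks: algebra
-/

set_option autoImplicit false
set_option linter.unusedVariables false
set_option linter.unusedSectionVars false

namespace Pool.Agent.R332.FM

open Finset TP

section generic

variable {𝕜 A : Type} [RCLike 𝕜] [CommRing A] [Algebra 𝕜 A]

/-- the connection attached to `Ξ` -/
def Gam (Xi : A →ₗ[𝕜] A) (X Y : A) : A := Xi (X * Y) - X * Xi Y - Y * Xi X

theorem Gam_symm (Xi : A →ₗ[𝕜] A) (X Y : A) : Gam Xi X Y = Gam Xi Y X := by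
  unfold Gam
  rw [mul_comm X Y]
  abel

theorem Gam_one (Xi : A →ₗ[𝕜] A) (h1 : Xi 1 = 0) (X : A) : Gam Xi X 1 = 0 := by
  unfold Gam
  rw [mul_one, h1, mul_zero, one_mul]
  abel

theorem Gam_eq (Xi : A →ₗ[𝕜] A) (c : A →ₗ[𝕜] 𝕜) (u mu : A)
    (hP : ∀ X, Xi (u * X) = u * Xi X + c X • (1 : A) + mu * X) (X Y : A) :
    Gam Xi X (u * Y) - Gam Xi Y (u * X) = c X • Y - c Y • X := by
  unfold Gam
  have e1 : X * (u * Y) = Y * (u * X) := by ring
  rw [e1, hP X, hP Y]
  have e2 : X * (u * Xi Y + c Y • (1 : A) + mu * Y) =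
      X * u * Xi Y + c Y • X + mu * X * Y := by
    rw [mul_add, mul_add, mul_smul_comm, mul_one]; ring
  have e3 : Y * (u * Xi X + c X • (1 : A) + mu * X) =
      Y * u * Xi X + c X • Y + mu * X * Y := by
    rw [mul_add, mul_add, mul_smul_comm, mul_one]; ring
  rw [e2, e3]
  ring

theorem star_of (Xi : A →ₗ[𝕜] A) (th : A →ₗ[𝕜] 𝕜) (B : A → A → 𝕜)
    (hB : ∀ X Y, B X Y = -2 * th (Xi X * Y)) (X Y Z : A) :
    B X (Y * Z) - th (Gam Xi X Y * Z) - th (Y * Gam Xi X Z) =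
      (1 / 2) * (B (X * Y) Z - B Z (X * Y)) + (1 / 2) * (B (X * Z) Y - B Y (X * Z)) := by
  simp only [hB]
  unfold Gam
  have e1 : (Xi (X * Y) - X * Xi Y - Y * Xi X) * Z =
      Xi (X * Y) * Z - Xi Y * (X * Z) - Xi X * (Y * Z) := by ring
  have e2 : Y * (Xi (X * Z) - X * Xi Z - Z * Xi X) =
      Xi (X * Z) * Y - Xi Z * (X * Y) - Xi X * (Y * Z) := by ring
  rw [e1, e2, map_sub, map_sub, map_sub, map_sub]
  ring

end generic

variable {𝕜 : Type} [RCLike 𝕜] {r : ℕ} {m : Fin r → ℕ} [∀ g, NeZero (m g)]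

/-- the product algebra -/
abbrev Al (𝕜 : Type) {r : ℕ} (m : Fin r → ℕ) : Type := (g : Fin r) → TP 𝕜 (m g)

/-- regularity -/
structure Reg (u : Al 𝕜 m) : Prop where
  ne : ∀ g a, g ≠ a → c0 (u g) ≠ c0 (u a)
  nz : ∀ g, ∀ h : 1 < m g, co (u g) ⟨1, h⟩ ≠ 0

/-- linear form in the main variables -/
noncomputable def cL (c : Fin r → 𝕜) : Al 𝕜 m →ₗ[𝕜] 𝕜 where
  toFun X := ∑ g, c g * c0 (X g)
  map_add' X Y := by
    rw [← Finset.sum_add_distrib]
    refine Finset.sum_congr rfl fun g _ => ?_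
    rw [Pi.add_apply, map_add]; ring
  map_smul' t X := by
    rw [RingHom.id_apply, smul_eq_mul, Finset.mul_sum]
    refine Finset.sum_congr rfl fun g _ => ?_
    rw [Pi.smul_apply, map_smul, smul_eq_mul]; ring

theorem cL_apply (c : Fin r → 𝕜) (X : Al 𝕜 m) : cL c X = ∑ g, c g * c0 (X g) := rfl

/-- the operator `Ξ` -/
noncomputable def Xi (c : Fin r → 𝕜) (u : Al 𝕜 m) : Al 𝕜 m →ₗ[𝕜] Al 𝕜 m where
  toFun X := fun g => c g • Dl (u g) (X g) + ∑ a ∈ univ.erase g,
    c a • ((X g - c0 (X a) • (1 : TP 𝕜 (m g))) * Ring.inverse (u g - c0 (u a) • (1 : TP 𝕜 (m g))))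
  map_add' X Y := by
    funext g
    simp only [Pi.add_apply, map_add]
    rw [smul_add, add_add_add_comm, ← Finset.sum_add_distrib]
    congr 1
    refine Finset.sum_congr rfl fun a _ => ?_
    rw [← smul_add, ← add_mul, add_smul]
    congr 2
    abel
  map_smul' t X := by
    funext g
    simp only [Pi.smul_apply, map_smul, RingHom.id_apply]
    rw [smul_add, Finset.smul_sum, smul_comm]
    congr 1
    refine Finset.sum_congr rfl fun a _ => ?_
    rw [smul_comm t (c a)]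
    congr 1
    rw [← smul_mul_assoc, smul_sub, smul_smul, smul_eq_mul]

theorem Xi_apply (c : Fin r → 𝕜) (u X : Al 𝕜 m) (g : Fin r) :
    Xi c u X g = c g • Dl (u g) (X g) + ∑ a ∈ univ.erase g,
      c a • ((X g - c0 (X a) • (1 : TP 𝕜 (m g))) *
        Ring.inverse (u g - c0 (u a) • (1 : TP 𝕜 (m g)))) := rfl

theorem Xi_one (c : Fin r → 𝕜) (u : Al 𝕜 m) : Xi c u 1 = 0 := by
  funext g
  rw [Xi_apply, Pi.one_apply, Dl_one, smul_zero, zero_add, Pi.zero_apply]
  refine Finset.sum_eq_zero fun a _ => ?_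
  rw [Pi.one_apply, c0_one, one_smul, sub_self, zero_mul, smul_zero]

/-- the element `μ` -/
noncomputable def mu (c : Fin r → 𝕜) : Al 𝕜 m := fun g => -(c g * (1 / (m g : 𝕜))) • 1

theorem Xi_P (c : Fin r → 𝕜) (u : Al 𝕜 m) (hu : Reg u) (X : Al 𝕜 m) :
    Xi c u (u * X) = u * Xi c u X + cL c X • (1 : Al 𝕜 m) + mu c * X := by
  funext g
  have h1 := main_block (u g) (X g) (hu.nz g)
  have h2 : ∀ a ∈ univ.erase g,
      c a • (((u * X) g - c0 ((u * X) a) • (1 : TP 𝕜 (m g))) *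
        Ring.inverse (u g - c0 (u a) • (1 : TP 𝕜 (m g)))) =
      u g * (c a • ((X g - c0 (X a) • (1 : TP 𝕜 (m g))) *
        Ring.inverse (u g - c0 (u a) • (1 : TP 𝕜 (m g))))) +
      (c a * c0 (X a)) • (1 : TP 𝕜 (m g)) := by
    intro a ha
    have hne : g ≠ a := fun h => (Finset.mem_erase.1 ha).1 h.symm
    have hun : IsUnit (u g - c0 (u a) • (1 : TP 𝕜 (m g))) := by
      apply isUnit_of_c0
      rw [map_sub, map_smul, c0_one, smul_eq_mul, mul_one]
      exact sub_ne_zero.2 (hu.ne g a hne)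
    rw [mul_smul_comm, ← smul_smul, ← smul_add]
    congr 1
    have e : (u * X) g - c0 ((u * X) a) • (1 : TP 𝕜 (m g)) =
        u g * (X g - c0 (X a) • (1 : TP 𝕜 (m g))) +
        c0 (X a) • (u g - c0 (u a) • (1 : TP 𝕜 (m g))) := by
      rw [Pi.mul_apply, Pi.mul_apply, c0_mul, mul_sub, smul_sub, smul_smul, mul_smul_comm, mul_one,
        mul_comm (c0 (u a))]
      abel
    rw [e, add_mul, smul_mul_assoc, Ring.mul_inverse_cancel _ hun, mul_assoc]
  rw [Xi_apply, Finset.sum_congr rfl h2, Finset.sum_add_distrib, ← Finset.mul_sum,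
    ← Finset.sum_smul]
  have h3 : cL c X = c g * c0 (X g) + ∑ a ∈ univ.erase g, c a * c0 (X a) := by
    rw [cL_apply, Finset.add_sum_erase _ (fun g => c g * c0 (X g)) (Finset.mem_univ g)]
  have h4 : Dl (u g) ((u * X) g) = u g * Dl (u g) (X g) +
      (c0 (X g) • (1 : TP 𝕜 (m g)) - (1 / (m g : 𝕜)) • X g) := by
    rw [← h1, Pi.mul_apply]; abel
  rw [h4]
  show _ = u g * Xi c u X g + cL c X • (1 : TP 𝕜 (m g)) + (-(c g * (1 / (m g : 𝕜))) • 1) * X g
  rw [Xi_apply, h3, add_smul, smul_mul_assoc, one_mul, neg_smul, mul_add (u g), mul_smul_comm,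
    smul_add, smul_sub, smul_smul, smul_smul]
  abel

/-! ### blocks -/

/-- embedding of a block -/
noncomputable def sg (g : Fin r) (x : TP 𝕜 (m g)) : Al 𝕜 m := Pi.single g x

theorem sg_same (g : Fin r) (x : TP 𝕜 (m g)) : (sg g x : Al 𝕜 m) g = x := by simp [sg]

theorem mul_sg (u : Al 𝕜 m) (g : Fin r) (x : TP 𝕜 (m g)) : u * sg g x = sg g (u g * x) := by
  funext a
  rw [Pi.mul_apply]
  by_cases h : a = g
  · subst h; simp [sg]
  · simp [sg, h]

theorem sg_mul (g : Fin r) (x y : TP 𝕜 (m g)) : (sg g x : Al 𝕜 m) * sg g y = sg g (x * y) := by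
  rw [mul_sg, sg_same]

theorem sg_mul_ne {g a : Fin r} (h : g ≠ a) (x : TP 𝕜 (m g)) (y : TP 𝕜 (m a)) :
    (sg g x : Al 𝕜 m) * sg a y = 0 := by
  rw [mul_sg]
  have : (sg g x : Al 𝕜 m) a = 0 := by simp [sg, h.symm]
  rw [this, zero_mul]
  simp [sg]

theorem sg_add (g : Fin r) (x y : TP 𝕜 (m g)) : (sg g (x + y) : Al 𝕜 m) = sg g x + sg g y := by
  simp [sg, Pi.single_add]

theorem sg_smul (g : Fin r) (t : 𝕜) (x : TP 𝕜 (m g)) :
    (sg g (t • x) : Al 𝕜 m) = t • sg g x := by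
  simp [sg, Pi.single_smul]

theorem sg_zero (g : Fin r) : (sg g 0 : Al 𝕜 m) = 0 := by simp [sg]

theorem sum_sg (X : Al 𝕜 m) : ∑ g, sg g (X g) = X := by
  simpa [sg] using Finset.univ_sum_single X

/-- embedding as a linear map -/
noncomputable def sgL (g : Fin r) : TP 𝕜 (m g) →ₗ[𝕜] Al 𝕜 m where
  toFun := sg g
  map_add' := sg_add g
  map_smul' := sg_smul g

/-- powers of the nilpotent part of a block -/
noncomputable def N (u : Al 𝕜 m) (g : Fin r) (k : ℕ) : Al 𝕜 m := sg g (nu (u g) ^ k)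

theorem N_mul (u : Al 𝕜 m) (g : Fin r) (i j : ℕ) : N u g i * N u g j = N u g (i + j) := by
  unfold N; rw [sg_mul, pow_add]

theorem N_ge (u : Al 𝕜 m) (g : Fin r) (k : ℕ) (h : m g ≤ k) : N u g k = 0 := by
  unfold N; rw [nu_pow_eq_zero _ _ h, sg_zero]

theorem mul_N (u : Al 𝕜 m) (g : Fin r) (k : ℕ) :
    u * N u g k = c0 (u g) • N u g k + N u g (k + 1) := by
  unfold N
  rw [mul_sg, ← sg_smul, ← sg_add]
  congr 1
  have : u g = c0 (u g) • (1 : TP 𝕜 (m g)) + nu (u g) := by rw [nu]; abel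
  conv_lhs => enter [1]; rw [this]
  rw [add_mul, smul_mul_assoc, one_mul, pow_succ, mul_comm (nu (u g))]

theorem sum_N_zero (u : Al 𝕜 m) : ∑ g, N u g 0 = 1 := by
  have := sum_sg (1 : Al 𝕜 m)
  rw [← this]
  refine Finset.sum_congr rfl fun g _ => ?_
  unfold N
  rw [pow_zero]
  rfl

/-- uniqueness of the connection: the difference of two solutions vanishes -/
theorem uniq (u : Al 𝕜 m) (hu : Reg u) (L : Al 𝕜 m → Al 𝕜 m → Al 𝕜 m)
    (hadd : ∀ X Y Z, L X (Y + Z) = L X Y + L X Z) (hsmul : ∀ X (t : 𝕜) Y, L X (t • Y) = t • L X Y)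
    (hsymm : ∀ X Y, L X Y = L Y X) (h1 : ∀ X, L X 1 = 0)
    (hu' : ∀ X Y, L X (u * Y) = L Y (u * X)) : ∀ X Y, L X Y = 0 := by
  have hsub : ∀ X Y Z, L X (Y - Z) = L X Y - L X Z := by
    intro X Y Z
    have := hadd X (Y - Z) Z
    rw [sub_add_cancel] at this
    rw [this]; abel
  have hzero : ∀ X, L X 0 = 0 := by
    intro X
    have := hsub X 0 0
    rw [sub_zero] at this
    rw [this]; abel
  have hsum : ∀ X (s : Finset (Fin r)) (f : Fin r → Al 𝕜 m), L X (∑ g ∈ s, f g) =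
      ∑ g ∈ s, L X (f g) := by
    intro X s f
    classical
    induction s using Finset.induction_on with
    | empty => simp [hzero]
    | insert a s ha ih => rw [Finset.sum_insert ha, Finset.sum_insert ha, hadd, ih]
  -- multiplication by u - t
  have ht : ∀ (t : 𝕜) X Y, L X ((u - t • 1) * Y) = L ((u - t • 1) * X) Y := by
    intro t X Y
    rw [sub_mul, sub_mul, smul_mul_assoc, smul_mul_assoc, one_mul, one_mul, hsub, hsmul, hu',
      hsymm (u * X - t • X) Y, hsub, hsmul, hsymm Y X]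
  have hpow : ∀ (t : 𝕜) (k : ℕ) X Y, L X ((u - t • 1) ^ k * Y) = L ((u - t • 1) ^ k * X) Y := by
    intro t k
    induction k with
    | zero => intro X Y; rw [pow_zero, one_mul, one_mul]
    | succ k ih =>
      intro X Y
      rw [pow_succ, mul_assoc, ih, ht]
      congr 1
      ring
  have hblock : ∀ (t : 𝕜) (g : Fin r) (k : ℕ) (x : TP 𝕜 (m g)),
      (u - t • 1) ^ k * sg g x = sg g ((u g - t • 1) ^ k * x) := by
    intro t g k x
    rw [mul_sg]
    rfl
  -- different blocks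
  have hdiff : ∀ g a : Fin r, g ≠ a → ∀ x y, L (sg g x) (sg a y) = 0 := by
    intro g a hga x y
    have hun : IsUnit ((u g - c0 (u a) • (1 : TP 𝕜 (m g))) ^ (m a)) := by
      apply IsUnit.pow
      apply isUnit_of_c0
      rw [map_sub, map_smul, c0_one, smul_eq_mul, mul_one]
      exact sub_ne_zero.2 (hu.ne g a hga)
    obtain ⟨w, hw⟩ := hun
    have h := hpow (c0 (u a)) (m a) (sg g ((w⁻¹ : (TP 𝕜 (m g))ˣ) * x)) (sg a y)
    rw [hblock, hblock, ← hw, Units.mul_inv_cancel_left] at h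
    rw [← h]
    have h0 : (u a - c0 (u a) • (1 : TP 𝕜 (m a))) ^ (m a) = 0 := nu_pow_eq_zero (u a) (m a) le_rfl
    rw [h0, zero_mul, sg_zero, hzero]
  -- same block
  have hsame1 : ∀ g : Fin r, ∀ x, L (sg g x) (sg g 1) = 0 := by
    intro g x
    have h := h1 (sg g x)
    rw [← sum_sg (1 : Al 𝕜 m), hsum, Finset.sum_eq_single g] at h
    · exact h
    · intro a _ ha
      exact hdiff g a ha.symm _ _
    · intro h'; exact absurd (Finset.mem_univ _) h'
  have hsame : ∀ g : Fin r, ∀ x y, L (sg g x) (sg g y) = 0 := by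
    intro g x y
    let f : TP 𝕜 (m g) →ₗ[𝕜] Al 𝕜 m :=
      { toFun := fun y => L (sg g x) (sg g y)
        map_add' := fun y z => by rw [sg_add, hadd]
        map_smul' := fun t y => by rw [sg_smul, hsmul]; rfl }
    refine powers f (u g) (hu.nz g) 0 (fun k _ => ?_) y (fun i _ hi => absurd hi (Nat.not_lt_zero _))
    show L (sg g x) (sg g (nu (u g) ^ k)) = 0
    have h := hpow (c0 (u g)) k (sg g x) (sg g 1)
    rw [hblock, hblock, mul_one, hsame1] at h
    exact h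
  intro X Y
  rw [← sum_sg Y, hsum]
  refine Finset.sum_eq_zero fun a _ => ?_
  rw [hsymm, ← sum_sg X, hsum]
  refine Finset.sum_eq_zero fun g _ => ?_
  by_cases h : a = g
  · subst h; exact hsame _ _ _
  · exact hdiff a g h _ _

end Pool.Agent.R332.FM
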