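import Mathlib

/-!
# Truncated polynomial algebras `𝕜[ε]/(ε^n)` in coordinates, as commutative Banach algebras
-/

set_option autoImplicit false

namespace Pool.Agent.R332.FM

open Finset

/-- the algebra `𝕜[ε]/(ε^n)`, in the coordinates given by the powers of `ε` -/
def TP (𝕜 : Type) (n : ℕ) : Type := Fin n → 𝕜

namespace TP

variable {𝕜 : Type} [RCLike 𝕜] {n : ℕ}

instance : AddCommGroup (TP 𝕜 n) := inferInstanceAs (AddCommGroup (Fin n → 𝕜))
instance : Module 𝕜 (TP 𝕜 n) := inferInstanceAs (Module 𝕜 (Fin n → 𝕜))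
instance : FiniteDimensional 𝕜 (TP 𝕜 n) := inferInstanceAs (FiniteDimensional 𝕜 (Fin n → 𝕜))

omit [RCLike 𝕜] in
theorem ext' {x y : TP 𝕜 n} (h : ∀ i, x i = y i) : x = y := funext h

theorem add_apply (x y : TP 𝕜 n) (i : Fin n) : (x + y) i = x i + y i := rfl
theorem sub_apply (x y : TP 𝕜 n) (i : Fin n) : (x - y) i = x i - y i := rfl
theorem neg_apply (x : TP 𝕜 n) (i : Fin n) : (-x) i = -(x i) := rfl
theorem zero_apply (i : Fin n) : (0 : TP 𝕜 n) i = 0 := rfl
theorem smul_apply (c : 𝕜) (x : TP 𝕜 n) (i : Fin n) : (c • x) i = c * x i := rfl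

/-- the polynomial as a power series -/
noncomputable def toPS (x : TP 𝕜 n) : PowerSeries 𝕜 :=
  PowerSeries.mk fun k => if h : k < n then x ⟨k, h⟩ else 0

/-- truncation of a power series -/
noncomputable def ofPS (n : ℕ) (f : PowerSeries 𝕜) : TP 𝕜 n := fun k => PowerSeries.coeff (k : ℕ) f

theorem coeff_toPS (x : TP 𝕜 n) (k : Fin n) : PowerSeries.coeff (k : ℕ) (toPS x) = x k := by
  simp [toPS]

theorem ofPS_toPS (x : TP 𝕜 n) : ofPS n (toPS x) = x := by
  funext k
  exact coeff_toPS x k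

theorem ofPS_apply (f : PowerSeries 𝕜) (k : Fin n) : ofPS n f k = PowerSeries.coeff (k : ℕ) f := rfl

noncomputable instance : Mul (TP 𝕜 n) := ⟨fun x y => ofPS n (toPS x * toPS y)⟩
noncomputable instance : One (TP 𝕜 n) := ⟨ofPS n 1⟩
noncomputable instance : NatCast (TP 𝕜 n) := ⟨fun k => ofPS n k⟩
noncomputable instance : IntCast (TP 𝕜 n) := ⟨fun k => ofPS n k⟩
noncomputable instance : Pow (TP 𝕜 n) ℕ := ⟨fun x k => ofPS n (toPS x ^ k)⟩

theorem coeff_mul_congr (f f' g g' : PowerSeries 𝕜)
    (hf : ∀ k < n, PowerSeries.coeff k f = PowerSeries.coeff k f')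
    (hg : ∀ k < n, PowerSeries.coeff k g = PowerSeries.coeff k g') :
    ∀ k < n, PowerSeries.coeff k (f * g) = PowerSeries.coeff k (f' * g') := by
  intro k hk
  rw [PowerSeries.coeff_mul, PowerSeries.coeff_mul]
  refine Finset.sum_congr rfl fun p hp => ?_
  have h : p.1 + p.2 = k := by simpa using hp
  rw [hf p.1 (by omega), hg p.2 (by omega)]

theorem toPS_ofPS_coeff (f : PowerSeries 𝕜) : ∀ k < n,
    PowerSeries.coeff k (toPS (ofPS n f)) = PowerSeries.coeff k f := by
  intro k hk
  simp [toPS, ofPS, hk]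

theorem ofPS_mul (f g : PowerSeries 𝕜) : ofPS n (f * g) = ofPS n f * ofPS n g := by
  funext k
  exact (coeff_mul_congr _ _ _ _ (toPS_ofPS_coeff f) (toPS_ofPS_coeff g) k k.2).symm

theorem ofPS_pow (f : PowerSeries 𝕜) (j : ℕ) : ofPS n (f ^ j) = (ofPS n f) ^ j := by
  have h : ∀ j : ℕ, ∀ k < n, PowerSeries.coeff k (toPS (ofPS n f) ^ j) =
      PowerSeries.coeff k (f ^ j) := by
    intro j
    induction j with
    | zero => intro k hk; rw [pow_zero, pow_zero]
    | succ j ih =>
      rw [pow_succ, pow_succ]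
      exact coeff_mul_congr _ _ _ _ ih (toPS_ofPS_coeff f)
  funext k
  exact (h j k k.2).symm

theorem ofPS_surj : Function.Surjective (ofPS (𝕜 := 𝕜) n) := fun x => ⟨toPS x, ofPS_toPS x⟩

noncomputable instance : CommRing (TP 𝕜 n) :=
  Function.Surjective.commRing (ofPS (𝕜 := 𝕜) n) ofPS_surj
    (by funext k; simp [ofPS]; rfl) rfl (by intro f g; funext k; simp [ofPS]; rfl)
    ofPS_mul (by intro f; funext k; simp [ofPS]; rfl) (by intro f g; funext k; simp [ofPS]; rfl)
    (by intro j f; funext k; exact map_nsmul (PowerSeries.coeff (k : ℕ)) j f)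
    (by intro j f; funext k; exact map_zsmul (PowerSeries.coeff (k : ℕ)) j f)
    ofPS_pow (fun _ => rfl) (fun _ => rfl)

theorem mul_apply (x y : TP 𝕜 n) (k : Fin n) :
    (x * y) k = ∑ i : Fin n, ∑ j : Fin n, if (i : ℕ) + j = k then x i * y j else 0 := by
  change PowerSeries.coeff (k : ℕ) (toPS x * toPS y) = _
  rw [PowerSeries.coeff_mul]
  rw [← Finset.sum_product']
  have h1 : ∑ p ∈ (Finset.univ : Finset (Fin n)) ×ˢ (Finset.univ : Finset (Fin n)),
      (if (p.1 : ℕ) + p.2 = k then x p.1 * y p.2 else 0) =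
      ∑ p ∈ ((Finset.univ : Finset (Fin n)) ×ˢ (Finset.univ : Finset (Fin n))).filter
        (fun p => (p.1 : ℕ) + p.2 = k), x p.1 * y p.2 := by
    rw [Finset.sum_filter]
  rw [h1]
  symm
  refine Finset.sum_bij (fun p _ => ((p.1 : ℕ), (p.2 : ℕ))) ?_ ?_ ?_ ?_
  · intro p hp
    simp only [Finset.mem_filter, Finset.mem_product, Finset.mem_univ, true_and] at hp
    simpa using hp
  · intro p _ q _ h
    simp only [Prod.mk.injEq, Fin.val_inj] at h
    exact Prod.ext h.1 h.2
  · intro q hq
    have h : q.1 + q.2 = k := by simpa using hq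
    refine ⟨(⟨q.1, by omega⟩, ⟨q.2, by omega⟩), ?_, rfl⟩
    simp [h]
  · intro p _
    rw [coeff_toPS, coeff_toPS]

theorem one_apply (k : Fin n) : (1 : TP 𝕜 n) k = if (k : ℕ) = 0 then 1 else 0 := by
  change PowerSeries.coeff (k : ℕ) (1 : PowerSeries 𝕜) = _
  rw [PowerSeries.coeff_one]

theorem smul_mul' (c : 𝕜) (x y : TP 𝕜 n) : c • x * y = c • (x * y) := by
  funext k
  rw [mul_apply]
  change _ = c * (x * y) k
  rw [mul_apply, Finset.mul_sum]
  refine Finset.sum_congr rfl fun i _ => ?_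
  rw [Finset.mul_sum]
  refine Finset.sum_congr rfl fun j _ => ?_
  change (if (i : ℕ) + j = k then (c * x i) * y j else 0) = _
  split_ifs
  · ring
  · ring

noncomputable instance : Algebra 𝕜 (TP 𝕜 n) :=
  Algebra.ofModule (fun c x y => smul_mul' c x y)
    (fun c x y => by rw [mul_comm, smul_mul', mul_comm])

noncomputable instance : Norm (TP 𝕜 n) := ⟨fun x => ∑ i, ‖x i‖⟩

theorem norm_def (x : TP 𝕜 n) : ‖x‖ = ∑ i, ‖x i‖ := rfl

theorem core : NormedSpace.Core 𝕜 (TP 𝕜 n) where
  norm_nonneg x := Finset.sum_nonneg fun i _ => norm_nonneg _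
  norm_smul c x := by
    rw [norm_def, norm_def, Finset.mul_sum]
    refine Finset.sum_congr rfl fun i _ => ?_
    rw [smul_apply, norm_mul]
  norm_triangle x y := by
    rw [norm_def, norm_def, norm_def, ← Finset.sum_add_distrib]
    exact Finset.sum_le_sum fun i _ => norm_add_le _ _
  norm_eq_zero_iff x := by
    refine (Finset.sum_eq_zero_iff_of_nonneg (f := fun i => ‖x i‖)
      (fun i _ => norm_nonneg _)).trans ?_
    constructor
    · intro h
      funext i
      exact norm_eq_zero.1 (h i (Finset.mem_univ i))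
    · intro h i _
      rw [h]; exact norm_zero

theorem norm_mul_le' (x y : TP 𝕜 n) : ‖x * y‖ ≤ ‖x‖ * ‖y‖ := by
  rw [norm_def, norm_def, norm_def, Finset.sum_mul_sum]
  calc ∑ k, ‖(x * y) k‖ ≤ ∑ k : Fin n, ∑ i : Fin n, ∑ j : Fin n,
        (if (i : ℕ) + j = k then ‖x i‖ * ‖y j‖ else 0) := by
        refine Finset.sum_le_sum fun k _ => ?_
        rw [mul_apply]
        refine (norm_sum_le _ _).trans (Finset.sum_le_sum fun i _ => ?_)
        refine (norm_sum_le _ _).trans (Finset.sum_le_sum fun j _ => ?_)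
        split_ifs
        · rw [norm_mul]
        · rw [norm_zero]
    _ = ∑ i : Fin n, ∑ j : Fin n, ∑ k : Fin n,
        (if (i : ℕ) + j = k then ‖x i‖ * ‖y j‖ else 0) := by
        rw [Finset.sum_comm]
        refine Finset.sum_congr rfl fun i _ => ?_
        rw [Finset.sum_comm]
    _ ≤ _ := by
        refine Finset.sum_le_sum fun i _ => Finset.sum_le_sum fun j _ => ?_
        by_cases h : (i : ℕ) + j < n
        · rw [Finset.sum_eq_single (⟨(i : ℕ) + j, h⟩ : Fin n)]
          · simp
          · intro k _ hk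
            rw [if_neg]
            intro h'
            exact hk (Fin.ext h'.symm)
          · intro h'
            exact absurd (Finset.mem_univ _) h'
        · rw [Finset.sum_eq_zero]
          · positivity
          · intro k _
            rw [if_neg]
            have := k.2
            omega

noncomputable instance : NormedAddCommGroup (TP 𝕜 n) := NormedAddCommGroup.ofCore core

noncomputable instance : NormedCommRing (TP 𝕜 n) :=
  { (inferInstance : NormedAddCommGroup (TP 𝕜 n)), (inferInstance : CommRing (TP 𝕜 n)) with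
    norm_mul_le := norm_mul_le' }

noncomputable instance : NormedAlgebra 𝕜 (TP 𝕜 n) :=
  { (inferInstance : Algebra 𝕜 (TP 𝕜 n)) with
    norm_smul_le := fun c x => (core.norm_smul c x).le }

instance : CompleteSpace (TP 𝕜 n) := FiniteDimensional.complete 𝕜 (TP 𝕜 n)

end TP

end Pool.Agent.R332.FM
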